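import Mathlib
import Pool.Agent.helper159_BO.Avg

set_option autoImplicit false

/-! Small combinations of several integers without many small prime factors. -/

namespace Pool.Agent.helper159_GP

open Finset Pool.Agent.helper159_BO

variable {r : ℕ}

/-- the box of the tuples -/
def box (r T : ℕ) : Finset (Fin r → ℕ) := Fintype.piFinset (fun _ => Icc 1 T)

theorem mem_box {T : ℕ} {s : Fin r → ℕ} : s ∈ box r T ↔ ∀ i, 1 ≤ s i ∧ s i ≤ T := by
  unfold box
  rw [Fintype.mem_piFinset]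
  simp only [mem_Icc]

theorem card_box (r T : ℕ) : (box r T).card = T ^ r := by
  unfold box
  rw [Fintype.card_piFinset]
  simp [Nat.card_Icc]

theorem card_tuples (p T : ℕ) (E : Fin r → ℕ) (hp : p.Prime) (i₀ : Fin r) (h₀ : ¬ p ∣ E i₀) :
    T * ((box r T).filter (fun s => p ∣ ∑ i, s i * E i)).card ≤ T ^ r * (T / p + 1) := by
  classical
  set S := (box r T).filter (fun s => p ∣ ∑ i, s i * E i) with hS
  have h1 : S.card ≤ (T / p + 1) * (S.image (fun s => Function.update s i₀ 1)).card := by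
    apply Finset.card_le_mul_card_image
    intro a _
    have hmap : ∀ x ∈ S.filter (fun s => Function.update s i₀ 1 = a), x i₀ ∈
        (Icc 1 T).filter (fun s => p ∣ s * E i₀ + ∑ i ∈ univ.erase i₀, a i * E i) := by
      intro x hx
      rw [mem_filter, hS, mem_filter, mem_box] at hx
      obtain ⟨⟨hx1, hx2⟩, hx3⟩ := hx
      rw [mem_filter, mem_Icc]
      refine ⟨hx1 i₀, ?_⟩
      have h2 : ∑ i ∈ univ.erase i₀, a i * E i = ∑ i ∈ univ.erase i₀, x i * E i := by
        apply Finset.sum_congr rfl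
        intro i hi
        rw [← hx3, Function.update_of_ne (mem_erase.1 hi).1]
      rw [h2, Finset.add_sum_erase univ (fun i => x i * E i) (mem_univ i₀)]
      exact hx2
    have hinj : Set.InjOn (fun x : Fin r → ℕ => x i₀)
        (S.filter (fun s => Function.update s i₀ 1 = a) : Finset (Fin r → ℕ)) := by
      intro x hx x' hx' he
      have hx3 := (mem_filter.1 (mem_coe.1 hx)).2
      have hx3' := (mem_filter.1 (mem_coe.1 hx')).2
      funext i
      by_cases hi : i = i₀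
      · rw [hi]; exact he
      · have h3 : Function.update x i₀ 1 i = Function.update x' i₀ 1 i := by rw [hx3, hx3']
        rwa [Function.update_of_ne hi, Function.update_of_ne hi] at h3
    exact (Finset.card_le_card_of_injOn _ hmap hinj).trans (card_class p (E i₀) _ T hp h₀)
  have h2 : T * (S.image (fun s => Function.update s i₀ 1)).card ≤ T ^ r := by
    rcases Nat.eq_zero_or_pos T with hT | hT
    · rw [hT]; simp
    have h3 : S.image (fun s => Function.update s i₀ 1) ⊆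
        Fintype.piFinset (fun i => if i = i₀ then {1} else Icc 1 T) := by
      intro a ha
      rw [mem_image] at ha
      obtain ⟨s, hs, rfl⟩ := ha
      rw [hS, mem_filter, mem_box] at hs
      rw [Fintype.mem_piFinset]
      intro i
      by_cases hi : i = i₀
      · subst hi
        simp
      · rw [Function.update_of_ne hi, if_neg hi, mem_Icc]
        exact hs.1 i
    have h4 := card_le_card h3
    rw [Fintype.card_piFinset] at h4
    have h5 : ∏ i : Fin r, (if i = i₀ then ({1} : Finset ℕ) else Icc 1 T).card =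
        ∏ i ∈ univ.erase i₀, T := by
      rw [← Finset.mul_prod_erase univ _ (mem_univ i₀)]
      simp only [if_true, card_singleton, one_mul]
      apply Finset.prod_congr rfl
      intro i hi
      rw [if_neg (mem_erase.1 hi).1, Nat.card_Icc]
      omega
    rw [h5] at h4
    have h6 : T * ∏ i ∈ univ.erase i₀, T = T ^ r := by
      have := Finset.mul_prod_erase (univ : Finset (Fin r)) (fun _ => T) (mem_univ i₀)
      rw [this, prod_const, card_univ, Fintype.card_fin]
    calc T * (S.image (fun s => Function.update s i₀ 1)).card ≤ T * ∏ i ∈ univ.erase i₀, T :=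
          Nat.mul_le_mul_left _ h4
      _ = T ^ r := h6
  calc T * S.card ≤ T * ((T / p + 1) * (S.image (fun s => Function.update s i₀ 1)).card) :=
        Nat.mul_le_mul_left _ h1
    _ = (T * (S.image (fun s => Function.update s i₀ 1)).card) * (T / p + 1) := by ring
    _ ≤ T ^ r * (T / p + 1) := Nat.mul_le_mul_right _ h2

theorem avg (T : ℕ) (E : Fin r → ℕ) (hT : 1 ≤ T) (hE : ∀ p : ℕ, p.Prime → ∃ i, ¬ p ∣ E i)
    (w : ℕ → ℝ) (hw : ∀ p, 0 ≤ w p) :
    ∃ s : Fin r → ℕ, (∀ i, 1 ≤ s i ∧ s i ≤ T) ∧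
      ∑ p ∈ ((Icc 1 T).filter Nat.Prime).filter (fun p => p ∣ ∑ i, s i * E i), w p ≤
        ∑ p ∈ (Icc 1 T).filter Nat.Prime, w p * (2 / p) := by
  classical
  set S := box r T with hS
  set PP := (Icc 1 T).filter Nat.Prime with hPP
  have hTR : (0 : ℝ) < T := by exact_mod_cast hT
  have hcardS : (S.card : ℝ) = (T : ℝ) ^ r := by rw [hS, card_box]; push_cast; rfl
  have hSne : S.Nonempty := ⟨fun _ => 1, by rw [hS, mem_box]; exact fun _ => ⟨le_rfl, hT⟩⟩
  have key : ∑ s ∈ S, ∑ p ∈ PP.filter (fun p => p ∣ ∑ i, s i * E i), w p ≤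
      ∑ _s ∈ S, ∑ p ∈ PP, w p * (2 / p) := by
    have h1 : ∑ s ∈ S, ∑ p ∈ PP.filter (fun p => p ∣ ∑ i, s i * E i), w p =
        ∑ p ∈ PP, ∑ s ∈ S, if p ∣ ∑ i, s i * E i then w p else 0 := by
      rw [Finset.sum_comm]
      apply Finset.sum_congr rfl
      intro s _
      rw [Finset.sum_filter]
    rw [h1, sum_const, nsmul_eq_mul, hcardS, Finset.mul_sum]
    apply Finset.sum_le_sum
    intro p hp
    rw [hPP, mem_filter, mem_Icc] at hp
    obtain ⟨⟨hp1, hpT⟩, hpp⟩ := hp
    have hpR : (0 : ℝ) < p := by exact_mod_cast hp1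
    have hpTR : (p : ℝ) ≤ T := by exact_mod_cast hpT
    obtain ⟨i₀, hi₀⟩ := hE p hpp
    rw [← Finset.sum_filter, sum_const, nsmul_eq_mul]
    have h2 : (((S.filter (fun s => p ∣ ∑ i, s i * E i)).card : ℕ) : ℝ) ≤ (T : ℝ) ^ r * (2 / p) := by
      have h3 := card_tuples p T E hpp i₀ hi₀
      rw [← hS] at h3
      have h4 : (T : ℝ) * (((S.filter (fun s => p ∣ ∑ i, s i * E i)).card : ℕ) : ℝ) ≤
          (T : ℝ) ^ r * (((T / p : ℕ) : ℝ) + 1) := by exact_mod_cast h3
      have h5 : ((T / p : ℕ) : ℝ) ≤ T / p := Nat.cast_div_le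
      have h6 : (1 : ℝ) ≤ T / p := by rw [le_div_iff₀ hpR]; linarith
      have h7 : (T : ℝ) ^ r * (((T / p : ℕ) : ℝ) + 1) ≤ T * ((T : ℝ) ^ r * (2 / p)) := by
        calc (T : ℝ) ^ r * (((T / p : ℕ) : ℝ) + 1) ≤ (T : ℝ) ^ r * (T / p + T / p) := by
              apply mul_le_mul_of_nonneg_left _ (by positivity)
              linarith
          _ = T * ((T : ℝ) ^ r * (2 / p)) := by ring
      exact le_of_mul_le_mul_left (h4.trans h7) hTR
    calc (((S.filter (fun s => p ∣ ∑ i, s i * E i)).card : ℕ) : ℝ) * w p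
        ≤ (T : ℝ) ^ r * (2 / p) * w p := mul_le_mul_of_nonneg_right h2 (hw p)
      _ = (T : ℝ) ^ r * (w p * (2 / p)) := by ring
  obtain ⟨s, hs, hle⟩ := Finset.exists_le_of_sum_le hSne key
  rw [hS, mem_box] at hs
  exact ⟨s, hs, hle⟩

/-- a combination of the `E i` with few prime factors -/
theorem choose (T : ℕ) (E : Fin r → ℕ) (U θ B : ℝ) (hT : 1 ≤ T)
    (hE : ∀ p : ℕ, p.Prime → ∃ i, ¬ p ∣ E i) (hpos : ∀ i, 1 ≤ E i)
    (hU : 1 ≤ U) (hθ : 32 * U ≤ θ)
    (hB : ∀ s : Fin r → ℕ, (∀ i, 1 ≤ s i ∧ s i ≤ T) → Real.log ((∑ i, s i * E i : ℕ) : ℝ) ≤ B)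
    (hlog : 8 * U * B ≤ T) :
    ∃ s : Fin r → ℕ, (∀ i, 1 ≤ s i ∧ s i ≤ T) ∧ 1 ≤ ∑ i, s i * E i ∧
      (∑ p ∈ (∑ i, s i * E i).primeFactors with (16 : ℝ) < ((p : ℕ) : ℝ), 1 / ((p : ℕ) : ℝ)) ≤ 1 / 2 ∧
      (∑ p ∈ (∑ i, s i * E i).primeFactors with θ < ((p : ℕ) : ℝ), 1 / ((p : ℕ) : ℝ)) ≤ 1 / U := by
  classical
  have hTR : (0 : ℝ) < T := by exact_mod_cast hT
  have hU0 : 0 < U := by linarith
  have hθ0 : 0 < θ := by linarith
  obtain ⟨s, hs, h⟩ := avg T E hT hE
    (fun p => (if (16 : ℝ) < (p : ℝ) then 1 / (p : ℝ) else 0) + U * (if θ < (p : ℝ) then 1 / (p : ℝ) else 0))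
    (by
      intro p
      have h1 : (0 : ℝ) ≤ 1 / (p : ℝ) := by positivity
      split_ifs <;> nlinarith)
  have hD1 : 1 ≤ ∑ i, s i * E i := by
    obtain ⟨i, -⟩ := hE 2 Nat.prime_two
    have h1 : 1 * 1 ≤ s i * E i := Nat.mul_le_mul (hs i).1 (hpos i)
    exact h1.trans (Finset.single_le_sum (f := fun i => s i * E i) (fun _ _ => Nat.zero_le _) (mem_univ i))
  have hlD := hB s hs
  refine ⟨s, hs, hD1, ?_⟩
  obtain ⟨D, hD⟩ : ∃ D : ℕ, D = ∑ i, s i * E i := ⟨_, rfl⟩
  rw [← hD] at h hD1 hlD ⊢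
  -- the right hand side
  have hR : ∑ p ∈ (Icc 1 T).filter Nat.Prime,
      ((if (16 : ℝ) < (p : ℝ) then 1 / (p : ℝ) else 0) + U * (if θ < (p : ℝ) then 1 / (p : ℝ) else 0)) *
        (2 / p) ≤ 1 / 4 := by
    have e : ∀ p : ℕ, ((if (16 : ℝ) < (p : ℝ) then 1 / (p : ℝ) else 0) +
        U * (if θ < (p : ℝ) then 1 / (p : ℝ) else 0)) * (2 / p) =
        (if (16 : ℝ) < (p : ℝ) then 1 / (p : ℝ) * (2 / p) else 0) +
        U * (if θ < (p : ℝ) then 1 / (p : ℝ) * (2 / p) else 0) := by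
      intro p
      split_ifs <;> ring
    simp only [e]
    rw [Finset.sum_add_distrib, ← Finset.mul_sum, ← Finset.sum_filter, ← Finset.sum_filter]
    have h1 : ∑ p ∈ ((Icc 1 T).filter Nat.Prime).filter (fun p : ℕ => (16 : ℝ) < (p : ℝ)),
        1 / (p : ℝ) * (2 / p) ≤ 2 / 16 := by
      have h2 := sum_sq 16 T (by norm_num)
      have h3 : ((Icc 1 T).filter Nat.Prime).filter (fun p : ℕ => (16 : ℝ) < (p : ℝ)) =
          ((Icc 1 T).filter Nat.Prime).filter (fun p => 16 < p) := by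
        apply Finset.filter_congr
        intro p _
        exact_mod_cast Iff.rfl
      rw [h3]
      exact_mod_cast h2
    have hfl : θ / 2 ≤ (⌊θ⌋₊ : ℝ) := by
      have := Nat.lt_floor_add_one θ
      linarith
    have hfl1 : 1 ≤ ⌊θ⌋₊ := by
      apply Nat.le_floor
      push_cast
      linarith
    have h4 : ∑ p ∈ ((Icc 1 T).filter Nat.Prime).filter (fun p : ℕ => θ < (p : ℝ)),
        1 / (p : ℝ) * (2 / p) ≤ 2 / (⌊θ⌋₊ : ℝ) := by
      refine le_trans ?_ (sum_sq ⌊θ⌋₊ T hfl1)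
      apply Finset.sum_le_sum_of_subset_of_nonneg
      · intro p hp
        rw [mem_filter] at hp ⊢
        refine ⟨hp.1, ?_⟩
        exact (Nat.floor_lt hθ0.le).2 hp.2
      · intro p _ _
        positivity
    have h5 : 2 / (⌊θ⌋₊ : ℝ) ≤ 2 / (θ / 2) := by
      apply div_le_div_of_nonneg_left (by norm_num) (by positivity) hfl
    have h6 : U * (2 / (θ / 2)) ≤ 1 / 8 := by
      have : U * (2 / (θ / 2)) = 4 * U / θ := by field_simp; ring
      rw [this, div_le_div_iff₀ hθ0 (by norm_num)]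
      linarith
    have h7 := mul_le_mul_of_nonneg_left (h4.trans h5) hU0.le
    linarith
  have hmain := h.trans hR
  rw [Finset.sum_add_distrib, ← Finset.mul_sum] at hmain
  have hnn : ∀ y : ℝ, 0 ≤ ∑ p ∈ ((Icc 1 T).filter Nat.Prime).filter (fun p => p ∣ D),
      (if y < ((p : ℕ) : ℝ) then 1 / (p : ℝ) else 0) := by
    intro y
    apply Finset.sum_nonneg
    intro p _
    split_ifs
    · positivity
    · exact le_rfl
  have hn1 := hnn 16
  have hn2 := mul_nonneg hU0.le (hnn θ)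
  have hs1 := split D T hD1 hT 16
  have hs2 := split D T hD1 hT θ
  have hlD0 : 0 ≤ Real.log D := Real.log_natCast_nonneg D
  have hrem : U * (2 * Real.log D / T) ≤ 1 / 4 := by
    have h1 : U * (2 * Real.log D / T) = (8 * U * Real.log D) / (4 * T) := by field_simp; ring
    rw [h1, div_le_div_iff₀ (by positivity) (by norm_num)]
    have h2 : 8 * U * Real.log D ≤ 8 * U * B :=
      mul_le_mul_of_nonneg_left hlD (by positivity)
    linarith
  have hrem1 : 2 * Real.log D / T ≤ 1 / 4 := by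
    have h1 : 0 ≤ 2 * Real.log D / T := by positivity
    nlinarith
  refine ⟨by linarith, ?_⟩
  rw [le_div_iff₀ hU0]
  have h1 := mul_le_mul_of_nonneg_left hs2 hU0.le
  rw [mul_add] at h1
  rw [mul_comm]
  linarith

end Pool.Agent.helper159_GP
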