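import Mathlib
import Pool.Agent.helper159_BO.Main
import Pool.Agent.helper159_GP.Avg

set_option autoImplicit false

/-! Record gaps in generalised arithmetic progressions. -/

namespace Pool.Agent.helper159_GP

open Filter Finset Pool.Agent.helper159_ZK Pool.Agent.helper159_BO

/-- the conditions on `x` -/
theorem conds (ε R R' Y₀ : ℝ) (hε : 0 < ε) : ∀ᶠ x : ℝ in atTop,
    1 ≤ x ∧ 8 ≤ x ^ (ε / 4) ∧ R ≤ Real.log x ∧ R' ≤ Real.log x ∧ Y₀ ≤ x ^ (ε / 2) ∧ 1 ≤ Real.log x ∧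
    144 * Real.log x ^ 2 ≤ x ^ (ε / 4) ∧ 2 * |Real.log (ε / 2)| + 2 ≤ Real.log (Real.log x) := by
  have hlog := Real.tendsto_log_atTop
  have h1 : Tendsto (fun x : ℝ => x ^ (ε / 4)) atTop atTop := tendsto_rpow_atTop (by positivity)
  have h2 : Tendsto (fun x : ℝ => x ^ (ε / 2)) atTop atTop := tendsto_rpow_atTop (by positivity)
  have h3 := (isLittleO_log_rpow_rpow_atTop (2 : ℝ) (show 0 < ε / 4 by positivity)).def
    (show (0 : ℝ) < 1 / 144 by norm_num)
  filter_upwards [eventually_ge_atTop 1, h1.eventually_ge_atTop 8, hlog.eventually_ge_atTop R,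
    hlog.eventually_ge_atTop R', h2.eventually_ge_atTop Y₀, hlog.eventually_ge_atTop 1, h3,
    (hlog.comp hlog).eventually_ge_atTop (2 * |Real.log (ε / 2)| + 2)] with x a1 a2 a3 a3' a4 a5 a6 a7
  refine ⟨a1, a2, a3, a3', a4, a5, ?_, a7⟩
  rw [Real.norm_eq_abs, Real.norm_eq_abs, abs_of_nonneg (by positivity), abs_of_nonneg (by positivity)] at a6
  have e : Real.log x ^ (2 : ℝ) = Real.log x ^ 2 := by
    rw [show (2 : ℝ) = ((2 : ℕ) : ℝ) by norm_num, Real.rpow_natCast]
  rw [e] at a6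
  linarith

theorem thr_big2 : ∀ᶠ y : ℝ in atTop,
    128 * Real.log (Real.log y) ≤ Real.exp (Real.log (Real.log y) *
      Real.log (Real.log (Real.log (Real.log y))) / (20 * Real.log (Real.log (Real.log y)))) := by
  have hlog := Real.tendsto_log_atTop
  have hll : Tendsto (fun l : ℝ => Real.log (Real.log l)) atTop atTop := hlog.comp hlog
  have key : ∀ᶠ s : ℝ in atTop, 128 * s ≤ Real.exp (s * Real.log (Real.log s) / (20 * Real.log s)) := by
    have h1 := (Real.isLittleO_pow_log_id_atTop (n := 2)).def (show (0 : ℝ) < 1 / 40 by norm_num)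
    filter_upwards [h1, hlog.eventually_ge_atTop 1, hll.eventually_ge_atTop 1,
      eventually_ge_atTop (128 : ℝ)] with s a1 a2 a3 a4
    have hls : 0 < Real.log s := by linarith
    have hs0 : 0 < s := by linarith
    rw [Real.norm_eq_abs, abs_of_nonneg (by positivity), id, Real.norm_eq_abs, abs_of_pos hs0] at a1
    have h3 : 2 * Real.log s ≤ s / (20 * Real.log s) := by
      rw [le_div_iff₀ (by positivity)]
      nlinarith
    have h4 : s / (20 * Real.log s) ≤ s * Real.log (Real.log s) / (20 * Real.log s) := by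
      apply div_le_div_of_nonneg_right _ (by positivity)
      nlinarith
    calc 128 * s ≤ s ^ 2 := by nlinarith
      _ = Real.exp (2 * Real.log s) := by
          rw [two_mul, Real.exp_add, Real.exp_log hs0, pow_two]
      _ ≤ _ := Real.exp_le_exp.2 (h3.trans h4)
  exact hll.eventually key

theorem sum_le_of (r : ℕ) (s E : Fin r → ℕ) (S X : ℝ) (hS : 0 ≤ S) (hs : ∀ i, (s i : ℝ) ≤ S)
    (hE : ∀ i, (E i : ℝ) ≤ X) : ((∑ i, s i * E i : ℕ) : ℝ) ≤ r * (S * X) := by
  push_cast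
  calc ∑ i, (s i : ℝ) * (E i : ℝ) ≤ ∑ _i : Fin r, S * X := by
        apply Finset.sum_le_sum
        intro i _
        exact mul_le_mul (hs i) (hE i) (Nat.cast_nonneg _) hS
    _ = r * (S * X) := by rw [sum_const, card_univ, Fintype.card_fin, nsmul_eq_mul]

theorem core (hbase : Base) (ε A : ℝ) (hε : 0 < ε) (hε1 : ε ≤ 1) (hA : 0 ≤ A) :
    ∃ κ : ℝ, 0 < κ ∧ ∃ x₀ : ℝ, 1 ≤ x₀ ∧ ∀ x : ℝ, x₀ ≤ x → ∀ g r : ℕ, 1 ≤ g → (r : ℝ) ≤ x →
      (∑ p ∈ g.primeFactors with Real.log (Real.log x) < ((p : ℕ) : ℝ), 1 / ((p : ℕ) : ℝ)) ≤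
        A / Real.log (Real.log x) → ∀ E : Fin r → ℕ, (∀ i, 1 ≤ E i ∧ (g : ℝ) * E i ≤ x) →
      (∀ p : ℕ, p.Prime → ∃ i, ¬ p ∣ E i) → ∀ n₀ : ℕ,
      ∃ k : Fin r → ℕ, (∀ i, 1 ≤ k i ∧ (k i : ℝ) ≤ x ^ ε) ∧
        ∀ p : ℕ, p.Prime → κ * ((Nat.totient g : ℝ) / g) * F (Real.log x) <
          |(p : ℝ) - ((n₀ + g * ∑ i, k i * E i : ℕ) : ℝ)| := by
  obtain ⟨c, hc, x₀b, hbb⟩ := hbase (ε / 6) (2 * A + 1) (by positivity) (by linarith) (by linarith)
  obtain ⟨R, hR⟩ := F_scale (ε / 6) (by positivity)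
  obtain ⟨R', hR'⟩ := F_mono
  have hll : Tendsto (fun l : ℝ => Real.log (Real.log l)) atTop atTop :=
    Real.tendsto_log_atTop.comp Real.tendsto_log_atTop
  obtain ⟨Y₀, hY₀⟩ := eventually_atTop.1 (((eventually_ge_atTop x₀b).and
    (hll.eventually_ge_atTop 1)).and (thr_big2.and (eventually_ge_atTop 1)))
  obtain ⟨x₀, hx₀⟩ := eventually_atTop.1 (conds ε R R' Y₀ hε)
  refine ⟨c * ((1 / 2 : ℝ) ^ 17 * (1 / 2)) * (ε / 6 / 8 / 16), by positivity, max x₀ 1, le_max_right _ _,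
    fun x hx g r hg hr hgp E hE hE2 n₀ => ?_⟩
  obtain ⟨c1, c2, c3, c3', c4, c5, c6, c7⟩ := hx₀ x ((le_max_left _ _).trans hx)
  have hx0 : 0 < x := by linarith
  have hlx : 0 < Real.log x := by linarith
  have habs : 0 ≤ |Real.log (ε / 2)| := abs_nonneg _
  have hllx : 0 < Real.log (Real.log x) := by linarith
  have hgR : (0 : ℝ) < g := by exact_mod_cast hg
  have hg1 : (1 : ℝ) ≤ g := by exact_mod_cast hg
  have htg0 : 0 ≤ (Nat.totient g : ℝ) / g := by positivity
  -- powers of `x`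
  obtain ⟨e4, he4⟩ : ∃ e4 : ℝ, e4 = x ^ (ε / 4) := ⟨_, rfl⟩
  rw [← he4] at c2 c6
  have he40 : 0 < e4 := by linarith
  have e2 : x ^ (ε / 2) = e4 ^ 2 := by
    rw [he4, ← Real.rpow_natCast, ← Real.rpow_mul hx0.le]; congr 1; push_cast; ring
  have e1 : x ^ ε = e4 ^ 4 := by
    rw [he4, ← Real.rpow_natCast, ← Real.rpow_mul hx0.le]; congr 1; push_cast; ring
  have he44 : e4 ^ 4 ≤ x := by
    rw [← e1]
    calc x ^ ε ≤ x ^ (1 : ℝ) := Real.rpow_le_rpow_of_exponent_le c1 hε1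
      _ = x := Real.rpow_one x
  have he43 : e4 ^ 3 ≤ x := (pow_le_pow_right₀ (by linarith) (by norm_num)).trans he44
  have he41 : e4 ≤ x := by
    calc e4 = e4 ^ 1 := (pow_one _).symm
      _ ≤ e4 ^ 4 := pow_le_pow_right₀ (by linarith) (by norm_num)
      _ ≤ x := he44
  obtain ⟨T, hT⟩ : ∃ T : ℕ, T = ⌊e4⌋₊ := ⟨_, rfl⟩
  have hT1 : (T : ℝ) ≤ e4 := by rw [hT]; exact Nat.floor_le he40.le
  have hT2 : e4 < T + 1 := by rw [hT]; exact Nat.lt_floor_add_one _
  have hT7 : (1 : ℝ) ≤ T := by linarith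
  have hT0 : 1 ≤ T := by exact_mod_cast hT7
  -- sizes
  have hsum_le : ∀ s : Fin r → ℕ, (∀ i, 1 ≤ s i ∧ s i ≤ T) →
      (g : ℝ) * ((∑ i, s i * E i : ℕ) : ℝ) ≤ x * (e4 * x) := by
    intro s hs
    have h1 := sum_le_of r s E e4 (x / g) he40.le
      (fun i => (by exact_mod_cast (hs i).2 : (s i : ℝ) ≤ T).trans hT1)
      (fun i => by rw [le_div_iff₀ hgR, mul_comm]; exact (hE i).2)
    calc (g : ℝ) * ((∑ i, s i * E i : ℕ) : ℝ) ≤ g * (r * (e4 * (x / g))) :=
          mul_le_mul_of_nonneg_left h1 hgR.le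
      _ = r * (e4 * x) := by field_simp
      _ ≤ x * (e4 * x) := mul_le_mul_of_nonneg_right hr (by positivity)
  have hx3 : x * (e4 * x) * e4 ^ 2 ≤ x ^ 3 := by
    calc x * (e4 * x) * e4 ^ 2 = x ^ 2 * e4 ^ 3 := by ring
      _ ≤ x ^ 2 * x := mul_le_mul_of_nonneg_left he43 (by positivity)
      _ = x ^ 3 := by ring
  have hx3' : x * (e4 * x) ≤ x ^ 3 := by
    refine le_trans ?_ hx3
    exact le_mul_of_one_le_right (by positivity) (one_le_pow₀ (by linarith))
  have hB : ∀ s : Fin r → ℕ, (∀ i, 1 ≤ s i ∧ s i ≤ T) →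
      Real.log ((∑ i, s i * E i : ℕ) : ℝ) ≤ 3 * Real.log x := by
    intro s hs
    have h1 := hsum_le s hs
    have h0 : (0 : ℝ) ≤ ((∑ i, s i * E i : ℕ) : ℝ) := Nat.cast_nonneg _
    have h2 : ((∑ i, s i * E i : ℕ) : ℝ) ≤ x ^ 3 := by
      calc ((∑ i, s i * E i : ℕ) : ℝ) ≤ g * ((∑ i, s i * E i : ℕ) : ℝ) := le_mul_of_one_le_left h0 hg1
        _ ≤ x ^ 3 := h1.trans hx3'
    rcases eq_or_lt_of_le h0 with h3 | h3
    · rw [← h3, Real.log_zero]; linarith
    · have h4 := Real.log_le_log h3 h2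
      have h5 : Real.log (x ^ 3) = 3 * Real.log x := by rw [Real.log_pow]; push_cast; ring
      rw [h5] at h4
      exact h4
  -- the combination has to be chosen for the interval length `y`, which depends on it; use the largest one
  have hloglog3 : Real.log (Real.log (x ^ 3)) ≤ 2 * Real.log (Real.log x) := by
    rw [Real.log_pow]
    push_cast
    rw [Real.log_mul (by norm_num) hlx.ne']
    have h1 : Real.log 3 ≤ 2 := by
      have := Real.log_le_sub_one_of_pos (show (0 : ℝ) < 3 by norm_num)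
      linarith
    linarith
  have hUle : 2 * Real.log (Real.log x) ≤ 2 * Real.log x := by
    have := Real.log_le_sub_one_of_pos hlx
    linarith
  have hlog : 8 * (2 * Real.log (Real.log x)) * (3 * Real.log x) ≤ T := by
    have h1 : 8 * (2 * Real.log (Real.log x)) * (3 * Real.log x) ≤
        8 * (2 * Real.log x) * (3 * Real.log x) := by
      apply mul_le_mul_of_nonneg_right _ (by positivity)
      linarith
    have h2 : 8 * (2 * Real.log x) * (3 * Real.log x) = 48 * Real.log x ^ 2 := by ring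
    have h3 : 0 ≤ Real.log x ^ 2 := by positivity
    linarith
  obtain ⟨s, hs, hD1, hD16, hDθ⟩ := choose T E (2 * Real.log (Real.log x)) (64 * Real.log (Real.log x))
    (3 * Real.log x) hT0 hE2 (fun i => (hE i).1) (by linarith) (by linarith) hB hlog
  have hgD := hsum_le s hs
  obtain ⟨D, hD⟩ : ∃ D : ℕ, D = ∑ i, s i * E i := ⟨_, rfl⟩
  rw [← hD] at hD1 hD16 hDθ hgD
  have hDR : (1 : ℝ) ≤ D := by exact_mod_cast hD1
  have hgD1 : 1 ≤ g * D := Nat.mul_pos hg hD1
  have hgDR : (1 : ℝ) ≤ g * D := by exact_mod_cast hgD1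
  obtain ⟨y, hy⟩ : ∃ y : ℝ, y = (g * D : ℝ) * e4 ^ 2 := ⟨_, rfl⟩
  have hy3 : y ≤ x ^ 3 := by
    rw [hy]
    exact (mul_le_mul_of_nonneg_right hgD (by positivity)).trans hx3
  have hyε : x ^ (ε / 2) ≤ y := by
    rw [e2, hy]; exact le_mul_of_one_le_left (by positivity) hgDR
  have hy0 : 0 < y := lt_of_lt_of_le (by positivity) hyε
  obtain ⟨⟨b1, b2⟩, b3, b4⟩ := hY₀ y (c4.trans hyε)
  have hly : Real.log y ≤ 3 * Real.log x := by
    have h4 := Real.log_le_log hy0 hy3
    rw [Real.log_pow] at h4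
    push_cast at h4
    exact h4
  have hly1 : ε / 2 * Real.log x ≤ Real.log y := by
    rw [← Real.log_rpow hx0]; exact Real.log_le_log (by positivity) hyε
  have hly0 : 0 < Real.log y := lt_of_lt_of_le (by positivity) hly1
  have hUx : Real.log (Real.log y) ≤ 2 * Real.log (Real.log x) := by
    refine le_trans ?_ hloglog3
    apply Real.log_le_log hly0
    rw [Real.log_pow]
    push_cast
    exact hly
  have hxU : Real.log (Real.log x) ≤ 2 * Real.log (Real.log y) := by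
    have h1 := Real.log_le_log (by positivity) hly1
    rw [Real.log_mul (by positivity) hlx.ne'] at h1
    have h2 := neg_abs_le (Real.log (ε / 2))
    linarith
  have hU0 : 0 < Real.log (Real.log y) := by linarith
  have hDy : ((g * D : ℕ) : ℝ) ≤ y ^ (1 - ε / 6) := by
    have h1 : y ^ (1 - ε / 6) * y ^ (ε / 6) = y := by
      rw [← Real.rpow_add hy0]; simp
    have h2 : y ^ (ε / 6) ≤ e4 ^ 2 := by
      calc y ^ (ε / 6) ≤ (x ^ 3) ^ (ε / 6) := Real.rpow_le_rpow hy0.le hy3 (by positivity)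
        _ = x ^ (ε / 2) := by
            rw [← Real.rpow_natCast x 3, ← Real.rpow_mul hx0.le]; congr 1; push_cast; ring
        _ = e4 ^ 2 := e2
    have h3 : 0 < y ^ (1 - ε / 6) := by positivity
    have h4 : (g * D : ℝ) * e4 ^ 2 ≤ y ^ (1 - ε / 6) * e4 ^ 2 := by
      calc (g * D : ℝ) * e4 ^ 2 = y := hy.symm
        _ = y ^ (1 - ε / 6) * y ^ (ε / 6) := h1.symm
        _ ≤ y ^ (1 - ε / 6) * e4 ^ 2 := mul_le_mul_of_nonneg_left h2 h3.le
    push_cast
    exact le_of_mul_le_mul_right h4 (by positivity)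
  -- the threshold
  obtain ⟨θ, hθ⟩ : ∃ θ : ℝ, θ = Real.exp (Real.log (Real.log y) *
    Real.log (Real.log (Real.log (Real.log y))) / (20 * Real.log (Real.log (Real.log y)))) := ⟨_, rfl⟩
  rw [← hθ] at b3
  have hxθ : 64 * Real.log (Real.log x) ≤ θ := by linarith
  have hsum : (∑ p ∈ (g * D).primeFactors with
      Real.exp (Real.log (Real.log y) * Real.log (Real.log (Real.log (Real.log y))) /
        (20 * Real.log (Real.log (Real.log y)))) < ((p : ℕ) : ℝ), 1 / ((p : ℕ) : ℝ)) ≤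
      (2 * A + 1) / Real.log (Real.log y) := by
    rw [← hθ]
    have h1 := sum_mul_le g D (by omega) (by omega) θ
    have h2 := (sum_mono g (Real.log (Real.log x)) θ (by linarith)).trans hgp
    have h2' := (sum_mono D (64 * Real.log (Real.log x)) θ hxθ).trans hDθ
    have h3 : A / Real.log (Real.log x) ≤ 2 * A / Real.log (Real.log y) := by
      rw [div_le_div_iff₀ hllx hU0]
      calc A * Real.log (Real.log y) ≤ A * (2 * Real.log (Real.log x)) :=
            mul_le_mul_of_nonneg_left hUx hA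
        _ = 2 * A * Real.log (Real.log x) := by ring
    have h4 : 1 / (2 * Real.log (Real.log x)) ≤ 1 / Real.log (Real.log y) :=
      one_div_le_one_div_of_le hU0 hUx
    rw [add_div]
    linarith
  obtain ⟨n, hn1, hn2, hn3, hn4⟩ := hbb y b1 (g * D) hgD1 hDy hsum n₀ n₀
  obtain ⟨k', hk'⟩ := (Nat.modEq_iff_dvd' hn2.le).1 hn1.symm
  have hnk : n = n₀ + g * D * k' := by omega
  have hk1 : 1 ≤ k' := by
    rcases Nat.eq_zero_or_pos k' with h | h
    · rw [h] at hnk; simp at hnk; omega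
    · exact h
  have hkR : (k' : ℝ) ≤ e4 ^ 2 := by
    have h1 : (n : ℝ) = n₀ + g * D * k' := by rw [hnk]; push_cast; ring
    have h2 : (g * D : ℝ) * k' ≤ (g * D : ℝ) * e4 ^ 2 := by
      rw [← hy]; linarith
    exact le_of_mul_le_mul_left h2 (by linarith)
  refine ⟨fun i => k' * s i, fun i => ⟨Nat.mul_pos hk1 (hs i).1, ?_⟩, fun p hp => ?_⟩
  · push_cast
    rw [e1]
    have h1 : (s i : ℝ) ≤ e4 := (by exact_mod_cast (hs i).2 : (s i : ℝ) ≤ T).trans hT1
    calc (k' : ℝ) * s i ≤ e4 ^ 2 * e4 := mul_le_mul hkR h1 (Nat.cast_nonneg _) (by positivity)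
      _ = e4 ^ 3 := by ring
      _ ≤ e4 ^ 4 := pow_le_pow_right₀ (by linarith) (by norm_num)
  · have hn : n₀ + g * ∑ i, k' * s i * E i = n := by
      rw [hnk, hD]
      congr 1
      rw [mul_assoc, Finset.sum_mul]
      congr 1
      apply Finset.sum_congr rfl
      intro i _
      ring
    simp only [hn]
    refine lt_of_le_of_lt ?_ (hn4 p hp)
    obtain ⟨hFp, hF1⟩ := hR (3 * Real.log x) (by linarith) (Real.log y) (by linarith) hly
    obtain ⟨hF20, hF2⟩ := hR' (Real.log x) c3' (2 * Real.log x) (by linarith) le_rfl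
    obtain ⟨-, hF3⟩ := hR' (2 * Real.log x) (by linarith) (3 * Real.log x) (by linarith) (by linarith)
    have hFx : Real.log y * Real.log (Real.log y) ^ 2 *
        Real.log (Real.log (Real.log (Real.log y))) /
          Real.log (Real.log (Real.log y)) ^ 2 = F (Real.log y) := rfl
    rw [hFx]
    have hK : (Nat.totient g : ℝ) / g * ((1 / 2 : ℝ) ^ 17 * (1 / 2)) ≤
        (Nat.totient (g * D) : ℝ) / ((g * D : ℕ) : ℝ) :=
      (mul_le_mul_of_nonneg_left (tot_lower D hD1 hD16) htg0).trans (tot_mul g D hg hD1)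
    have hη : ε / 6 / 8 / 16 * F (Real.log x) ≤ F (Real.log y) := by
      have h1 : F (Real.log x) ≤ 16 * F (3 * Real.log x) := by linarith
      calc ε / 6 / 8 / 16 * F (Real.log x) ≤ ε / 6 / 8 / 16 * (16 * F (3 * Real.log x)) :=
            mul_le_mul_of_nonneg_left h1 (by positivity)
        _ = ε / 6 / 8 * F (3 * Real.log x) := by ring
        _ ≤ F (Real.log y) := hF1
    have := final_bound hc.le htg0 (by positivity) hK hη (by positivity)
    exact this

end Pool.Agent.helper159_GP
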