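import Mathlib
import Pool.Agent.helper159_GP.Main

set_option autoImplicit false

/-! Record gaps in generalised arithmetic progressions: the final statement. -/

namespace Pool.Agent.helper159_GP

open Filter Finset Pool.Agent.helper159_ZK Pool.Agent.helper159_BO

theorem general (hbase : Base) (ε A : ℝ) (hε : 0 < ε) (hA : 0 ≤ A) :
    ∃ κ : ℝ, 0 < κ ∧ ∃ x₀ : ℝ, 1 ≤ x₀ ∧ ∀ x : ℝ, x₀ ≤ x → ∀ g r : ℕ, 1 ≤ g → (r : ℝ) ≤ x →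
      (∑ p ∈ g.primeFactors with Real.log (Real.log x) < ((p : ℕ) : ℝ), 1 / ((p : ℕ) : ℝ)) ≤
        A / Real.log (Real.log x) → ∀ E : Fin r → ℕ, (∀ i, 1 ≤ E i ∧ (g : ℝ) * E i ≤ x) →
      (∀ p : ℕ, p.Prime → ∃ i, ¬ p ∣ E i) → ∀ n₀ : ℕ,
      ∃ k : Fin r → ℕ, (∀ i, 1 ≤ k i ∧ (k i : ℝ) ≤ x ^ ε) ∧
        ∀ p : ℕ, p.Prime → κ * ((Nat.totient g : ℝ) / g) * F (Real.log x) <
          |(p : ℝ) - ((n₀ + g * ∑ i, k i * E i : ℕ) : ℝ)| := by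
  obtain ⟨κ, hκ, x₀, hx₀, H⟩ := core hbase (min ε 1) A (lt_min hε one_pos) (min_le_right _ _) hA
  refine ⟨κ, hκ, x₀, hx₀, fun x hx g r hg hr hgp E hE hE2 n₀ => ?_⟩
  obtain ⟨k, hk1, hk2⟩ := H x hx g r hg hr hgp E hE hE2 n₀
  refine ⟨k, fun i => ⟨(hk1 i).1, (hk1 i).2.trans ?_⟩, hk2⟩
  exact Real.rpow_le_rpow_of_exponent_le (hx₀.trans hx) (min_le_left _ _)

theorem final (hbase : Base) (ε A : ℝ) (hε : 0 < ε) (hA : 0 ≤ A) :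
    ∃ κ : ℝ, 0 < κ ∧ ∃ x₀ : ℝ, ∀ x : ℝ, x₀ ≤ x → ∀ r : ℕ, 1 ≤ r → (r : ℝ) ≤ x →
      ∀ d : Fin r → ℕ, (∀ i, 1 ≤ d i ∧ (d i : ℝ) ≤ x) → ∀ g : ℕ, g = univ.gcd d →
      (∑ p ∈ g.primeFactors with Real.log (Real.log x) < ((p : ℕ) : ℝ), 1 / ((p : ℕ) : ℝ)) ≤
        A / Real.log (Real.log x) → ∀ n₀ : ℕ,
      ∃ k : Fin r → ℕ, (∀ i, 1 ≤ k i ∧ (k i : ℝ) ≤ x ^ ε) ∧
        ∀ p : ℕ, p.Prime → κ * ((Nat.totient g : ℝ) / g) * F (Real.log x) <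
          |(p : ℝ) - ((n₀ + ∑ i, k i * d i : ℕ) : ℝ)| := by
  obtain ⟨κ, hκ, x₀, -, H⟩ := general hbase ε A hε hA
  refine ⟨κ, hκ, x₀, fun x hx r hr hrx d hd g hg hgp n₀ => ?_⟩
  haveI : Nonempty (Fin r) := ⟨⟨0, hr⟩⟩
  obtain ⟨E, hE1, hE2⟩ := Finset.extract_gcd d (univ_nonempty (α := Fin r))
  rw [← hg] at hE1
  have hg1 : 1 ≤ g := by
    rcases Nat.eq_zero_or_pos g with h | h
    · have h1 := hE1 ⟨0, hr⟩ (mem_univ _)
      rw [h, zero_mul] at h1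
      have := (hd ⟨0, hr⟩).1
      omega
    · exact h
  have hEp : ∀ i, 1 ≤ E i := by
    intro i
    rcases Nat.eq_zero_or_pos (E i) with h | h
    · have h1 := hE1 i (mem_univ _)
      rw [h, mul_zero] at h1
      have := (hd i).1
      omega
    · exact h
  obtain ⟨k, hk1, hk2⟩ := H x hx g r hg1 hrx hgp E
    (fun i => ⟨hEp i, by
      have h1 := hE1 i (mem_univ _)
      have h2 : (g : ℝ) * E i = d i := by rw [h1]; push_cast; ring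
      rw [h2]; exact (hd i).2⟩)
    (fun p hp => by
      by_contra hcon
      push Not at hcon
      have h1 : p ∣ univ.gcd E := Finset.dvd_gcd (fun i _ => hcon i)
      rw [hE2] at h1
      exact hp.one_lt.ne' (Nat.dvd_one.1 h1)) n₀
  refine ⟨k, hk1, fun p hp => ?_⟩
  have h1 : n₀ + ∑ i, k i * d i = n₀ + g * ∑ i, k i * E i := by
    rw [Finset.mul_sum]
    congr 1
    apply Finset.sum_congr rfl
    intro i hi
    rw [hE1 i hi]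
    ring
  rw [h1]
  exact hk2 p hp

end Pool.Agent.helper159_GP
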