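import Mathlib
import Pool.Agent.helper159_GP.Avg

set_option autoImplicit false

/-! Small combinations of several integers (of any sign) without many small prime factors. -/

namespace Pool.Agent.helper159_GP

open Finset Pool.Agent.helper159_BO

variable {r : ℕ}

theorem avgZ (T : ℕ) (E : Fin r → ℤ) (hT : 1 ≤ T) (hE : ∀ p : ℕ, p.Prime → ∃ i, ¬ (p : ℤ) ∣ E i)
    (w : ℕ → ℝ) (hw : ∀ p, 0 ≤ w p) :
    ∃ s : Fin r → ℕ, (∀ i, 1 ≤ s i ∧ s i ≤ T) ∧
      ∑ p ∈ ((Icc 1 T).filter Nat.Prime).filter (fun p : ℕ => (p : ℤ) ∣ ∑ i, (s i : ℤ) * E i), w p ≤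
        ∑ p ∈ (Icc 1 T).filter Nat.Prime, w p * (2 / p) := by
  classical
  set S := box r T with hS
  set PP := (Icc 1 T).filter Nat.Prime with hPP
  have hTR : (0 : ℝ) < T := by exact_mod_cast hT
  have hcardS : (S.card : ℝ) = (T : ℝ) ^ r := by rw [hS, card_box]; push_cast; rfl
  have hSne : S.Nonempty := ⟨fun _ => 1, by rw [hS, mem_box]; exact fun _ => ⟨le_rfl, hT⟩⟩
  have key : ∑ s ∈ S, ∑ p ∈ PP.filter (fun p : ℕ => (p : ℤ) ∣ ∑ i, (s i : ℤ) * E i), w p ≤
      ∑ _s ∈ S, ∑ p ∈ PP, w p * (2 / p) := by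
    have h1 : ∑ s ∈ S, ∑ p ∈ PP.filter (fun p : ℕ => (p : ℤ) ∣ ∑ i, (s i : ℤ) * E i), w p =
        ∑ p ∈ PP, ∑ s ∈ S, if (p : ℤ) ∣ ∑ i, (s i : ℤ) * E i then w p else 0 := by
      rw [Finset.sum_comm]
      apply Finset.sum_congr rfl
      intro s _
      rw [Finset.sum_filter]
    rw [h1, sum_const, nsmul_eq_mul, hcardS, Finset.mul_sum]
    apply Finset.sum_le_sum
    intro p hp
    rw [hPP, mem_filter, mem_Icc] at hp
    obtain ⟨⟨hp1, hpT⟩, hpp⟩ := hp
    have hpR : (0 : ℝ) < p := by exact_mod_cast hp1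
    have hpTR : (p : ℝ) ≤ T := by exact_mod_cast hpT
    obtain ⟨i₀, hi₀⟩ := hE p hpp
    rw [← Finset.sum_filter, sum_const, nsmul_eq_mul]
    have h2 : (((S.filter (fun s => (p : ℤ) ∣ ∑ i, (s i : ℤ) * E i)).card : ℕ) : ℝ) ≤ (T : ℝ) ^ r * (2 / p) := by
      have hp0 : (0 : ℤ) < p := by exact_mod_cast hp1
      have hEi : ∀ i, (((E i % (p : ℤ)).toNat : ℕ) : ℤ) = E i % p := fun i =>
        Int.toNat_of_nonneg (Int.emod_nonneg _ hp0.ne')
      have h3 := card_tuples p T (fun i => (E i % (p : ℤ)).toNat) hpp i₀ (by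
        intro hcon
        apply hi₀
        have h1 : (p : ℤ) ∣ E i₀ % p := by rw [← hEi i₀]; exact_mod_cast hcon
        exact (Int.dvd_iff_dvd_of_dvd_sub (by
          rw [Int.emod_def]; exact ⟨-(E i₀ / p), by ring⟩)).1 h1)
      have hfe : (box r T).filter (fun s => p ∣ ∑ i, s i * (E i % (p : ℤ)).toNat) =
          S.filter (fun s => (p : ℤ) ∣ ∑ i, (s i : ℤ) * E i) := by
        rw [← hS]
        apply Finset.filter_congr
        intro s _
        rw [← Int.natCast_dvd_natCast]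
        push_cast
        simp only [hEi]
        apply Int.dvd_iff_dvd_of_dvd_sub
        rw [← Finset.sum_sub_distrib]
        apply Finset.dvd_sum
        intro i _
        rw [Int.emod_def]
        exact ⟨-(s i * (E i / p)), by ring⟩
      rw [hfe] at h3
      have h4 : (T : ℝ) * (((S.filter (fun s => (p : ℤ) ∣ ∑ i, (s i : ℤ) * E i)).card : ℕ) : ℝ) ≤
          (T : ℝ) ^ r * (((T / p : ℕ) : ℝ) + 1) := by exact_mod_cast h3
      have h5 : ((T / p : ℕ) : ℝ) ≤ T / p := Nat.cast_div_le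
      have h6 : (1 : ℝ) ≤ T / p := by rw [le_div_iff₀ hpR]; linarith
      have h7 : (T : ℝ) ^ r * (((T / p : ℕ) : ℝ) + 1) ≤ T * ((T : ℝ) ^ r * (2 / p)) := by
        calc (T : ℝ) ^ r * (((T / p : ℕ) : ℝ) + 1) ≤ (T : ℝ) ^ r * (T / p + T / p) := by
              apply mul_le_mul_of_nonneg_left _ (by positivity)
              linarith
          _ = T * ((T : ℝ) ^ r * (2 / p)) := by ring
      exact le_of_mul_le_mul_left (h4.trans h7) hTR
    calc (((S.filter (fun s => (p : ℤ) ∣ ∑ i, (s i : ℤ) * E i)).card : ℕ) : ℝ) * w p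
        ≤ (T : ℝ) ^ r * (2 / p) * w p := mul_le_mul_of_nonneg_right h2 (hw p)
      _ = (T : ℝ) ^ r * (w p * (2 / p)) := by ring
  obtain ⟨s, hs, hle⟩ := Finset.exists_le_of_sum_le hSne key
  rw [hS, mem_box] at hs
  exact ⟨s, hs, hle⟩

/-- a combination of the integers `E i` with few prime factors -/
theorem chooseZ (T : ℕ) (E : Fin r → ℤ) (U θ B : ℝ) (hT : 41 ≤ T)
    (hE : ∀ p : ℕ, p.Prime → ∃ i, ¬ (p : ℤ) ∣ E i)
    (hU : 1 ≤ U) (hθ : 32 * U ≤ θ)
    (hB : ∀ s : Fin r → ℕ, (∀ i, 1 ≤ s i ∧ s i ≤ T) → Real.log (((∑ i, (s i : ℤ) * E i).natAbs : ℕ) : ℝ) ≤ B)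
    (hlog : 8 * U * B ≤ T) :
    ∃ s : Fin r → ℕ, (∀ i, 1 ≤ s i ∧ s i ≤ T) ∧ 1 ≤ (∑ i, (s i : ℤ) * E i).natAbs ∧
      (∑ p ∈ (∑ i, (s i : ℤ) * E i).natAbs.primeFactors with (16 : ℝ) < ((p : ℕ) : ℝ), 1 / ((p : ℕ) : ℝ)) ≤ 1 / 2 ∧
      (∑ p ∈ (∑ i, (s i : ℤ) * E i).natAbs.primeFactors with θ < ((p : ℕ) : ℝ), 1 / ((p : ℕ) : ℝ)) ≤ 1 / U := by
  classical
  have hTR : (0 : ℝ) < T := by exact_mod_cast (show 0 < T by omega)
  have hU0 : 0 < U := by linarith
  have hθ0 : 0 < θ := by linarith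
  obtain ⟨s, hs, h⟩ := avgZ T E (by omega) hE
    (fun p => (if (16 : ℝ) < (p : ℝ) then 1 / (p : ℝ) else 0) + U * (if θ < (p : ℝ) then 1 / (p : ℝ) else 0))
    (by
      intro p
      have h1 : (0 : ℝ) ≤ 1 / (p : ℝ) := by positivity
      split_ifs <;> nlinarith)
  -- the right hand side
  have hR : ∑ p ∈ (Icc 1 T).filter Nat.Prime,
      ((if (16 : ℝ) < (p : ℝ) then 1 / (p : ℝ) else 0) + U * (if θ < (p : ℝ) then 1 / (p : ℝ) else 0)) *
        (2 / p) ≤ 1 / 4 := by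
    have e : ∀ p : ℕ, ((if (16 : ℝ) < (p : ℝ) then 1 / (p : ℝ) else 0) +
        U * (if θ < (p : ℝ) then 1 / (p : ℝ) else 0)) * (2 / p) =
        (if (16 : ℝ) < (p : ℝ) then 1 / (p : ℝ) * (2 / p) else 0) +
        U * (if θ < (p : ℝ) then 1 / (p : ℝ) * (2 / p) else 0) := by
      intro p
      split_ifs <;> ring
    simp only [e]
    rw [Finset.sum_add_distrib, ← Finset.mul_sum, ← Finset.sum_filter, ← Finset.sum_filter]
    have h1 : ∑ p ∈ ((Icc 1 T).filter Nat.Prime).filter (fun p : ℕ => (16 : ℝ) < (p : ℝ)),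
        1 / (p : ℝ) * (2 / p) ≤ 2 / 16 := by
      have h2 := sum_sq 16 T (by norm_num)
      have h3 : ((Icc 1 T).filter Nat.Prime).filter (fun p : ℕ => (16 : ℝ) < (p : ℝ)) =
          ((Icc 1 T).filter Nat.Prime).filter (fun p => 16 < p) := by
        apply Finset.filter_congr
        intro p _
        exact_mod_cast Iff.rfl
      rw [h3]
      exact_mod_cast h2
    have hfl : θ / 2 ≤ (⌊θ⌋₊ : ℝ) := by
      have := Nat.lt_floor_add_one θ
      linarith
    have hfl1 : 1 ≤ ⌊θ⌋₊ := by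
      apply Nat.le_floor
      push_cast
      linarith
    have h4 : ∑ p ∈ ((Icc 1 T).filter Nat.Prime).filter (fun p : ℕ => θ < (p : ℝ)),
        1 / (p : ℝ) * (2 / p) ≤ 2 / (⌊θ⌋₊ : ℝ) := by
      refine le_trans ?_ (sum_sq ⌊θ⌋₊ T hfl1)
      apply Finset.sum_le_sum_of_subset_of_nonneg
      · intro p hp
        rw [mem_filter] at hp ⊢
        refine ⟨hp.1, ?_⟩
        exact (Nat.floor_lt hθ0.le).2 hp.2
      · intro p _ _
        positivity
    have h5 : 2 / (⌊θ⌋₊ : ℝ) ≤ 2 / (θ / 2) := by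
      apply div_le_div_of_nonneg_left (by norm_num) (by positivity) hfl
    have h6 : U * (2 / (θ / 2)) ≤ 1 / 8 := by
      have : U * (2 / (θ / 2)) = 4 * U / θ := by field_simp; ring
      rw [this, div_le_div_iff₀ hθ0 (by norm_num)]
      linarith
    have h7 := mul_le_mul_of_nonneg_left (h4.trans h5) hU0.le
    linarith
  have hmain := h.trans hR
  have hD1 : 1 ≤ (∑ i, (s i : ℤ) * E i).natAbs := by
    rcases Nat.eq_zero_or_pos (∑ i, (s i : ℤ) * E i).natAbs with h0 | h0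
    · exfalso
      have h00 : ∑ i, (s i : ℤ) * E i = 0 := Int.natAbs_eq_zero.1 h0
      rw [h00] at hmain
      have hsub : ({17, 19, 23, 29, 31, 37, 41} : Finset ℕ) ⊆
          ((Icc 1 T).filter Nat.Prime).filter (fun p : ℕ => (p : ℤ) ∣ 0) := by
        intro p hp
        simp only [mem_insert, mem_singleton] at hp
        rw [mem_filter, mem_filter, mem_Icc]
        refine ⟨⟨⟨by omega, by omega⟩, ?_⟩, dvd_zero _⟩
        rcases hp with rfl | rfl | rfl | rfl | rfl | rfl | rfl <;> norm_num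
      have h1 := Finset.sum_le_sum_of_subset_of_nonneg
        (f := fun p : ℕ => (if (16 : ℝ) < (p : ℝ) then 1 / (p : ℝ) else 0) +
          U * (if θ < (p : ℝ) then 1 / (p : ℝ) else 0)) hsub (by
          intro p _ _
          have h1 : (0 : ℝ) ≤ 1 / (p : ℝ) := by positivity
          show (0 : ℝ) ≤ (if (16 : ℝ) < (p : ℝ) then 1 / (p : ℝ) else 0) +
            U * (if θ < (p : ℝ) then 1 / (p : ℝ) else 0)
          split_ifs <;> nlinarith)
      have h2 : ∑ p ∈ ({17, 19, 23, 29, 31, 37, 41} : Finset ℕ), (if (16 : ℝ) < (p : ℝ) then 1 / (p : ℝ) else 0)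
          ≤ ∑ p ∈ ({17, 19, 23, 29, 31, 37, 41} : Finset ℕ),
            ((if (16 : ℝ) < (p : ℝ) then 1 / (p : ℝ) else 0) +
              U * (if θ < (p : ℝ) then 1 / (p : ℝ) else 0)) := by
        apply Finset.sum_le_sum
        intro p _
        have h1 : (0 : ℝ) ≤ 1 / (p : ℝ) := by positivity
        split_ifs <;> nlinarith
      have h3 : (1 : ℝ) / 4 < ∑ p ∈ ({17, 19, 23, 29, 31, 37, 41} : Finset ℕ),
          (if (16 : ℝ) < (p : ℝ) then 1 / (p : ℝ) else 0) := by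
        norm_num [Finset.sum_insert, Finset.sum_singleton]
      linarith
    · exact h0
  have hlD := hB s hs
  refine ⟨s, hs, hD1, ?_⟩
  obtain ⟨D, hD⟩ : ∃ D : ℕ, D = (∑ i, (s i : ℤ) * E i).natAbs := ⟨_, rfl⟩
  have hfe : ((Icc 1 T).filter Nat.Prime).filter (fun p : ℕ => (p : ℤ) ∣ ∑ i, (s i : ℤ) * E i) =
      ((Icc 1 T).filter Nat.Prime).filter (fun p => p ∣ D) := by
    apply Finset.filter_congr
    intro p _
    rw [hD, Int.natCast_dvd]
  rw [hfe] at hmain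
  rw [← hD] at hD1 hlD ⊢
  rw [Finset.sum_add_distrib, ← Finset.mul_sum] at hmain
  have hnn : ∀ y : ℝ, 0 ≤ ∑ p ∈ ((Icc 1 T).filter Nat.Prime).filter (fun p => p ∣ D),
      (if y < ((p : ℕ) : ℝ) then 1 / (p : ℝ) else 0) := by
    intro y
    apply Finset.sum_nonneg
    intro p _
    split_ifs
    · positivity
    · exact le_rfl
  have hn1 := hnn 16
  have hn2 := mul_nonneg hU0.le (hnn θ)
  have hs1 := split D T hD1 (by omega) 16
  have hs2 := split D T hD1 (by omega) θ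
  have hlD0 : 0 ≤ Real.log D := Real.log_natCast_nonneg D
  have hrem : U * (2 * Real.log D / T) ≤ 1 / 4 := by
    have h1 : U * (2 * Real.log D / T) = (8 * U * Real.log D) / (4 * T) := by field_simp; ring
    rw [h1, div_le_div_iff₀ (by positivity) (by norm_num)]
    have h2 : 8 * U * Real.log D ≤ 8 * U * B :=
      mul_le_mul_of_nonneg_left hlD (by positivity)
    linarith
  have hrem1 : 2 * Real.log D / T ≤ 1 / 4 := by
    have h1 : 0 ≤ 2 * Real.log D / T := by positivity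
    nlinarith
  refine ⟨by linarith, ?_⟩
  rw [le_div_iff₀ hU0]
  have h1 := mul_le_mul_of_nonneg_left hs2 hU0.le
  rw [mul_add] at h1
  rw [mul_comm]
  linarith

end Pool.Agent.helper159_GP
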