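import Mathlib
import Pool.Agent.H256R2.SC.G1
import Pool.Agent.helper159_GP.Main
import Pool.Agent.helper159_GP.AvgZ
import Pool.Agent.H361R2.PA.MultA

set_option autoImplicit false

/-! Record gaps around values of linear polynomials with large coefficients in every box. -/

namespace Pool.Agent.helper159_GP

open Filter Finset Pool.Agent.helper159_ZK Pool.Agent.helper159_BO

/-- the theorem on the values of a linear polynomial in one variable -/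
def KBase : Prop := ∀ D : ℕ, ∃ c : ℝ, 0 < c ∧ ∃ X₀ : ℝ, ∀ X : ℝ, X₀ ≤ X →
    ∀ α : ℕ, 1 ≤ α → Real.log α ≤ (Real.log X) ^ (D + 1) →
    ∀ γ : ℤ, (∀ p : ℕ, p.Prime → (p : ℝ) ≤ Real.log X / 10 → p ∣ α → (p : ℤ) ∣ γ) →
    ∀ z : ℤ, ∃ n : ℤ, (z : ℝ) + X / 4 < n ∧ (n : ℝ) ≤ z + X ∧
      ∀ j : ℤ, |(j : ℝ)| ≤ c * ((Nat.totient α : ℝ) / α * F (Real.log X)) → ¬ Prime ((α : ℤ) * n + γ + j)

theorem condsK (C : ℕ) (R X₁ : ℝ) : ∀ᶠ x : ℝ in atTop,
    1 ≤ x ∧ 42 ≤ x ^ (1 / 4 : ℝ) ∧ R ≤ Real.log x ∧ X₁ ≤ x ^ (1 / 4 : ℝ) ∧ 1 ≤ Real.log x ∧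
    32 * Real.log x ^ (C + 1) ≤ x ^ (1 / 4 : ℝ) ∧ 2 * 4 ^ (C + 2) ≤ Real.log x := by
  have hlog := Real.tendsto_log_atTop
  have h1 : Tendsto (fun x : ℝ => x ^ (1 / 4 : ℝ)) atTop atTop := tendsto_rpow_atTop (by norm_num)
  have h3 := (isLittleO_log_rpow_rpow_atTop ((C + 1 : ℕ) : ℝ) (show (0 : ℝ) < 1 / 4 by norm_num)).def
    (show (0 : ℝ) < 1 / 32 by norm_num)
  filter_upwards [eventually_ge_atTop 1, h1.eventually_ge_atTop 42, hlog.eventually_ge_atTop R,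
    h1.eventually_ge_atTop X₁, hlog.eventually_ge_atTop 1, h3,
    hlog.eventually_ge_atTop (2 * 4 ^ (C + 2))] with x a1 a2 a3 a4 a5 a6 a7
  refine ⟨a1, a2, a3, a4, a5, ?_, a7⟩
  rw [Real.norm_eq_abs, Real.norm_eq_abs, abs_of_nonneg (by positivity), abs_of_nonneg (by positivity)] at a6
  rw [Real.rpow_natCast] at a6
  linarith

theorem primorial_le_exp (u : ℝ) (hu : 0 ≤ u) : ((primorial ⌊u / 10⌋₊ : ℕ) : ℝ) ≤ Real.exp u := by
  have h1 : ((primorial ⌊u / 10⌋₊ : ℕ) : ℝ) ≤ (4 : ℝ) ^ ⌊u / 10⌋₊ := by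
    exact_mod_cast primorial_le_four_pow _
  have h2 : (4 : ℝ) ≤ Real.exp 10 := by
    have := Real.add_one_le_exp (10 : ℝ)
    linarith
  have h3 : ((⌊u / 10⌋₊ : ℕ) : ℝ) ≤ u / 10 := Nat.floor_le (by positivity)
  calc ((primorial ⌊u / 10⌋₊ : ℕ) : ℝ) ≤ (4 : ℝ) ^ ⌊u / 10⌋₊ := h1
    _ ≤ (Real.exp 10) ^ ⌊u / 10⌋₊ := pow_le_pow_left₀ (by norm_num) h2 _
    _ = Real.exp (⌊u / 10⌋₊ * 10) := by rw [← Real.exp_nat_mul]
    _ ≤ Real.exp u := Real.exp_le_exp.2 (by linarith)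

/-- a point of the box at which the polynomial is divisible by all small primes -/
theorem base_point {r : ℕ} (N P g : ℕ) (E m z : Fin r → ℤ) (n₀ : ℤ) (hP : P = primorial N)
    (hm : ∑ i, m i * E i = 1) (hg : ∀ p : ℕ, p.Prime → p ≤ N → p ∣ g → (p : ℤ) ∣ n₀) :
    ∃ k : Fin r → ℤ, (∀ i, z i < k i ∧ k i ≤ z i + P) ∧
      ∀ p : ℕ, p.Prime → p ≤ N → (p : ℤ) ∣ n₀ + g * ∑ i, k i * E i := by
  have hP0 : 0 < P := by rw [hP]; exact primorial_pos _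
  have hPZ : (0 : ℤ) < P := by exact_mod_cast hP0
  obtain ⟨Lz, hLz⟩ : ∃ Lz : ℤ, Lz = ∑ i, z i * E i := ⟨_, rfl⟩
  have hsol : ∀ p : ℕ, ∃ w : ℕ, p.Prime → ¬ p ∣ g → (p : ℤ) ∣ (g : ℤ) * w - (-(n₀ + g * Lz)) := by
    intro p
    by_cases h : p.Prime ∧ ¬ p ∣ g
    · obtain ⟨w, hw⟩ := Pool.Agent.H361R2.PA.solveM p g (-(n₀ + g * Lz)) h.1 h.2
      exact ⟨w, fun _ _ => hw⟩
    · exact ⟨0, fun h1 h2 => absurd ⟨h1, h2⟩ h⟩
  choose w hw using hsol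
  obtain ⟨h, -, hh⟩ := Pool.Agent.H256R2.SC.LG.exists_crt N w
  refine ⟨fun i => z i + 1 + (h * m i - 1) % P, fun i => ?_, fun p hp hpN => ?_⟩
  · have h1 := Int.emod_nonneg ((h : ℤ) * m i - 1) hPZ.ne'
    have h2 := Int.emod_lt_of_pos ((h : ℤ) * m i - 1) hPZ
    constructor
    · show z i < z i + 1 + (h * m i - 1) % P
      omega
    · show z i + 1 + (h * m i - 1) % P ≤ z i + P
      omega
  · have hpP : (p : ℤ) ∣ P := by
      rw [hP]; exact_mod_cast hp.dvd_primorial_iff.2 hpN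
    have e : ∑ i, (z i + 1 + ((h : ℤ) * m i - 1) % P) * E i =
        Lz + h - P * ∑ i, ((h * m i - 1) / P) * E i := by
      have e1 : ∀ i, (z i + 1 + ((h : ℤ) * m i - 1) % P) * E i =
          z i * E i + h * (m i * E i) - P * (((h * m i - 1) / P) * E i) := by
        intro i
        rw [Int.emod_def]
        ring
      simp only [e1]
      rw [Finset.sum_sub_distrib, Finset.sum_add_distrib, ← Finset.mul_sum, ← Finset.mul_sum, hm, ← hLz]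
      ring
    show (p : ℤ) ∣ n₀ + g * ∑ i, (z i + 1 + ((h : ℤ) * m i - 1) % P) * E i
    rw [e]
    have e2 : n₀ + g * (Lz + h - P * ∑ i, (((h : ℤ) * m i - 1) / P) * E i) =
        (n₀ + g * Lz + g * h) - P * (g * ∑ i, (((h : ℤ) * m i - 1) / P) * E i) := by ring
    rw [e2]
    refine dvd_sub ?_ (Dvd.dvd.mul_right hpP _)
    by_cases hpg : p ∣ g
    · have h1 : (p : ℤ) ∣ g := by exact_mod_cast hpg
      exact dvd_add (dvd_add (hg p hp hpN hpg) (Dvd.dvd.mul_right h1 _)) (Dvd.dvd.mul_right h1 _)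
    · have h1 := hw p hp hpg
      have h2 : (p : ℤ) ∣ (h : ℤ) - w p := by
        have := (Nat.modEq_iff_dvd.1 (hh p hp hpN).symm)
        exact this
      have e3 : n₀ + g * Lz + g * h = ((g : ℤ) * w p - (-(n₀ + g * Lz))) + g * ((h : ℤ) - w p) := by ring
      rw [e3]
      exact dvd_add h1 (Dvd.dvd.mul_left h2 _)

theorem linK (hbase : KBase) (C : ℕ) :
    ∃ κ : ℝ, 0 < κ ∧ ∃ x₀ : ℝ, ∀ x : ℝ, x₀ ≤ x → ∀ g r : ℕ, 1 ≤ g →
      ∀ E : Fin r → ℤ, (g : ℝ) * ((∑ i, |E i| : ℤ) : ℝ) ≤ Real.exp (Real.log x ^ C) →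
      ∀ m : Fin r → ℤ, ∑ i, m i * E i = 1 → ∀ n₀ : ℤ,
      (∀ p : ℕ, p.Prime → (p : ℝ) ≤ Real.log x → p ∣ g → (p : ℤ) ∣ n₀) → ∀ z : Fin r → ℤ,
      ∃ k : Fin r → ℤ, (∀ i, z i < k i ∧ (k i : ℝ) ≤ z i + x) ∧
        ∀ j : ℤ, |(j : ℝ)| ≤ κ * ((Nat.totient g : ℝ) / g) * F (Real.log x) →
          ¬ Prime (n₀ + (g : ℤ) * ∑ i, k i * E i + j) := by
  obtain ⟨c, hc, X₁, hbb⟩ := hbase (C + 1)
  obtain ⟨R, hR⟩ := F_scale (1 / 4) (by norm_num)
  obtain ⟨x₀, hx₀⟩ := eventually_atTop.1 (condsK C R X₁)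
  refine ⟨c * ((1 / 2 : ℝ) ^ 17 * (1 / 2)) * (1 / 4 / 8), by positivity, x₀,
    fun x hx g r hg E hEx m hm n₀ hn₀ z => ?_⟩
  obtain ⟨c1, c2, c3, c4, c5, c6, c7⟩ := hx₀ x hx
  have hx0 : 0 < x := by linarith
  have hlx : 0 < Real.log x := by linarith
  have hgR : (0 : ℝ) < g := by exact_mod_cast hg
  have hg1 : (1 : ℝ) ≤ g := by exact_mod_cast hg
  have htg0 : 0 ≤ (Nat.totient g : ℝ) / g := by positivity
  obtain ⟨y, hy⟩ : ∃ y : ℝ, y = x ^ (1 / 4 : ℝ) := ⟨_, rfl⟩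
  rw [← hy] at c2 c4 c6
  have hy0 : 0 < y := by linarith
  have hyy : y ^ 4 = x := by
    rw [hy, ← Real.rpow_natCast, ← Real.rpow_mul hx0.le]; norm_num
  have hly : Real.log y = Real.log x / 4 := by
    rw [hy, Real.log_rpow hx0]; ring
  have hyx : y ≤ x := by
    rw [← hyy]
    calc y = y ^ 1 := (pow_one _).symm
      _ ≤ y ^ 4 := pow_le_pow_right₀ (by linarith) (by norm_num)
  have hyyx : y + y ^ 2 ≤ x := by
    rw [← hyy]
    have h1 : 2 * y ≤ y ^ 2 := by rw [pow_two]; exact mul_le_mul_of_nonneg_right (by linarith) hy0.le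
    have h2 : y ^ 4 = y ^ 2 * y ^ 2 := by ring
    have h3 : 2 * y ^ 2 ≤ y ^ 2 * y ^ 2 := mul_le_mul_of_nonneg_right (by linarith) (by positivity)
    rw [h2]
    linarith
  obtain ⟨T, hT⟩ : ∃ T : ℕ, T = ⌊y⌋₊ := ⟨_, rfl⟩
  have hT1 : (T : ℝ) ≤ y := by rw [hT]; exact Nat.floor_le hy0.le
  have hT2 : y < T + 1 := by rw [hT]; exact Nat.lt_floor_add_one _
  have hT0 : 41 ≤ T := by
    rw [hT]; exact Nat.le_floor (by push_cast; linarith)
  have hTR : (41 : ℝ) ≤ T := by exact_mod_cast hT0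
  have hE2 : ∀ p : ℕ, p.Prime → ∃ i, ¬ (p : ℤ) ∣ E i := by
    intro p hp
    by_contra hcon
    push Not at hcon
    have h1 : (p : ℤ) ∣ ∑ i, m i * E i := Finset.dvd_sum (fun i _ => Dvd.dvd.mul_left (hcon i) _)
    rw [hm] at h1
    have h2 : p ∣ 1 := by exact_mod_cast h1
    exact hp.one_lt.ne' (Nat.dvd_one.1 h2)
  have hCpow : Real.log x ^ C ≤ Real.log x ^ (C + 1) := pow_le_pow_right₀ c5 (by omega)
  have hCpow1 : Real.log x ≤ Real.log x ^ (C + 1) := by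
    calc Real.log x = Real.log x ^ 1 := (pow_one _).symm
      _ ≤ Real.log x ^ (C + 1) := pow_le_pow_right₀ c5 (by omega)
  have hsum_le : ∀ s : Fin r → ℕ, (∀ i, 1 ≤ s i ∧ s i ≤ T) →
      (((∑ i, (s i : ℤ) * E i).natAbs : ℕ) : ℝ) ≤ x * ((∑ i, |E i| : ℤ) : ℝ) := by
    intro s hs
    rw [Nat.cast_natAbs]
    push_cast
    rw [Finset.mul_sum]
    refine (Finset.abs_sum_le_sum_abs _ _).trans ?_
    apply Finset.sum_le_sum
    intro i _
    rw [abs_mul, Nat.abs_cast]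
    apply mul_le_mul_of_nonneg_right _ (abs_nonneg _)
    exact ((by exact_mod_cast (hs i).2 : (s i : ℝ) ≤ T).trans hT1).trans hyx
  have hB' : ∀ s : Fin r → ℕ, (∀ i, 1 ≤ s i ∧ s i ≤ T) →
      (g : ℝ) * (((∑ i, (s i : ℤ) * E i).natAbs : ℕ) : ℝ) ≤ Real.exp (2 * Real.log x ^ (C + 1)) := by
    intro s hs
    have h1 := hsum_le s hs
    calc (g : ℝ) * (((∑ i, (s i : ℤ) * E i).natAbs : ℕ) : ℝ) ≤ g * (x * ((∑ i, |E i| : ℤ) : ℝ)) :=
          mul_le_mul_of_nonneg_left h1 hgR.le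
      _ = x * (g * ((∑ i, |E i| : ℤ) : ℝ)) := by ring
      _ ≤ x * Real.exp (Real.log x ^ C) := mul_le_mul_of_nonneg_left hEx hx0.le
      _ = Real.exp (Real.log x + Real.log x ^ C) := by rw [Real.exp_add, Real.exp_log hx0]
      _ ≤ Real.exp (2 * Real.log x ^ (C + 1)) := Real.exp_le_exp.2 (by linarith)
  have hB : ∀ s : Fin r → ℕ, (∀ i, 1 ≤ s i ∧ s i ≤ T) →
      Real.log (((∑ i, (s i : ℤ) * E i).natAbs : ℕ) : ℝ) ≤ 2 * Real.log x ^ (C + 1) := by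
    intro s hs
    have h0 : (0 : ℝ) ≤ (((∑ i, (s i : ℤ) * E i).natAbs : ℕ) : ℝ) := Nat.cast_nonneg _
    have h2 : (((∑ i, (s i : ℤ) * E i).natAbs : ℕ) : ℝ) ≤ Real.exp (2 * Real.log x ^ (C + 1)) :=
      (le_mul_of_one_le_left h0 hg1).trans (hB' s hs)
    rcases eq_or_lt_of_le h0 with h3 | h3
    · rw [← h3, Real.log_zero]; positivity
    · have h4 := Real.log_le_log h3 h2
      rwa [Real.log_exp] at h4
  have hlog : 8 * 1 * (2 * Real.log x ^ (C + 1)) ≤ T := by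
    have h1 : 1 ≤ Real.log x ^ (C + 1) := one_le_pow₀ c5
    linarith
  obtain ⟨s, hs, hD1, hD16, -⟩ := chooseZ T E 1 32 (2 * Real.log x ^ (C + 1)) hT0 hE2 le_rfl
    (by norm_num) hB hlog
  have hgD := hB' s hs
  obtain ⟨D, hD⟩ : ∃ D : ℕ, D = (∑ i, (s i : ℤ) * E i).natAbs := ⟨_, rfl⟩
  rw [← hD] at hD1 hD16 hgD
  have hgD1 : 1 ≤ g * D := Nat.mul_pos hg hD1
  have hgDR : (0 : ℝ) < (g * D : ℕ) := by exact_mod_cast hgD1
  have hlgD : Real.log ((g * D : ℕ) : ℝ) ≤ Real.log y ^ (C + 1 + 1) := by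
    have h1 : Real.log ((g * D : ℕ) : ℝ) ≤ 2 * Real.log x ^ (C + 1) := by
      rw [← Real.log_exp (2 * Real.log x ^ (C + 1))]
      apply Real.log_le_log hgDR
      push_cast
      exact hgD
    refine h1.trans ?_
    rw [hly, div_pow]
    rw [le_div_iff₀ (by positivity)]
    have h2 : Real.log x ^ (C + 1 + 1) = Real.log x ^ (C + 1) * Real.log x := pow_succ _ _
    rw [h2]
    calc 2 * Real.log x ^ (C + 1) * 4 ^ (C + 1 + 1) = Real.log x ^ (C + 1) * (2 * 4 ^ (C + 2)) := by ring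
      _ ≤ Real.log x ^ (C + 1) * Real.log x := mul_le_mul_of_nonneg_left c7 (by positivity)
  -- the base point
  obtain ⟨N, hN⟩ : ∃ N : ℕ, N = ⌊Real.log y / 10⌋₊ := ⟨_, rfl⟩
  have hlyn : 0 ≤ Real.log y := by rw [hly]; positivity
  have hNle : (N : ℝ) ≤ Real.log y / 10 := by rw [hN]; exact Nat.floor_le (by positivity)
  obtain ⟨k₀, hk₀, hk₀p⟩ := base_point N (primorial N) g E m z n₀ rfl hm (fun p hp hpN hpg => by
    apply hn₀ p hp _ hpg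
    have h1 : (p : ℝ) ≤ N := by exact_mod_cast hpN
    rw [hly] at hNle
    linarith)
  have hPy : ((primorial N : ℕ) : ℝ) ≤ y := by
    rw [hN]
    refine (primorial_le_exp _ hlyn).trans ?_
    rw [Real.exp_log hy0]
  obtain ⟨β, hβ⟩ : ∃ β : ℤ, β = n₀ + g * ∑ i, k₀ i * E i := ⟨_, rfl⟩
  rw [← hβ] at hk₀p
  have hpN : ∀ p : ℕ, (p : ℝ) ≤ Real.log y / 10 → p ≤ N := fun p hp => by
    rw [hN]; exact Nat.le_floor hp
  obtain ⟨σ, hσ, hσD⟩ : ∃ σ : ℤ, (σ = 1 ∨ σ = -1) ∧ ∑ i, (s i : ℤ) * E i = σ * D := by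
    rcases Int.natAbs_eq (∑ i, (s i : ℤ) * E i) with h | h
    · exact ⟨1, Or.inl rfl, by rw [hD, one_mul]; exact h⟩
    · exact ⟨-1, Or.inr rfl, by rw [hD, neg_one_mul]; exact h⟩
  have hσσ : σ * σ = 1 := by rcases hσ with h | h <;> rw [h] <;> norm_num
  obtain ⟨n, hn1, hn2, hn3⟩ := hbb y c4 (g * D) hgD1 hlgD (σ * β)
    (fun p hp hpy _ => Dvd.dvd.mul_left (hk₀p p hp (hpN p hpy)) _) 0
  have hn0 : (0 : ℝ) < n := by
    have : (0 : ℝ) < y / 4 := by positivity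
    push_cast at hn1
    linarith
  have hn1' : 0 < n := by exact_mod_cast hn0
  have hnR : (n : ℝ) ≤ y := by
    push_cast at hn2
    linarith
  refine ⟨fun i => k₀ i + n * s i, fun i => ⟨?_, ?_⟩, fun j hj => ?_⟩
  · have h1 : 0 < n * s i := mul_pos hn1' (by exact_mod_cast (hs i).1)
    have h2 := (hk₀ i).1
    show z i < k₀ i + n * s i
    omega
  · have h1 : (s i : ℝ) ≤ y := (by exact_mod_cast (hs i).2 : (s i : ℝ) ≤ T).trans hT1
    have h2 : (n : ℝ) * s i ≤ y * y := mul_le_mul hnR h1 (Nat.cast_nonneg _) hy0.le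
    have h3 : (k₀ i : ℝ) ≤ z i + (primorial N : ℕ) := by exact_mod_cast (hk₀ i).2
    push_cast
    have h4 : y * y = y ^ 2 := (pow_two y).symm
    linarith
  · have hval : n₀ + (g : ℤ) * ∑ i, (k₀ i + n * s i) * E i = β + σ * (((g * D : ℕ) : ℤ) * n) := by
      have e1 : ∑ i, (k₀ i + n * s i) * E i = ∑ i, k₀ i * E i + n * ∑ i, (s i : ℤ) * E i := by
        rw [Finset.mul_sum, ← Finset.sum_add_distrib]
        apply Finset.sum_congr rfl
        intro i _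
        ring
      rw [e1, hσD, hβ]
      push_cast
      ring
    simp only [hval]
    obtain ⟨hFp, hF1⟩ := hR (Real.log x) c3 (Real.log y) (by linarith) (by linarith)
    have hK : (Nat.totient g : ℝ) / g * ((1 / 2 : ℝ) ^ 17 * (1 / 2)) ≤
        (Nat.totient (g * D) : ℝ) / ((g * D : ℕ) : ℝ) :=
      (mul_le_mul_of_nonneg_left (tot_lower D hD1 hD16) htg0).trans (tot_mul g D hg hD1)
    have hfin := final_bound hc.le htg0 (by positivity) hK hF1 (by positivity)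
    have hj' := hj.trans hfin
    have h1 := hn3 (σ * j) (by
      have h5 : |((σ * j : ℤ) : ℝ)| = |(j : ℝ)| := by
        rcases hσ with h | h <;> rw [h] <;> push_cast <;> simp
      rw [h5]
      exact hj')
    have h2 : ((g * D : ℕ) : ℤ) * n + σ * β + σ * j = σ * (β + σ * (((g * D : ℕ) : ℤ) * n) + j) := by
      linear_combination (-(((g * D : ℕ) : ℤ) * n)) * hσσ
    rw [h2] at h1
    intro hp
    apply h1
    rcases hσ with h | h
    · rw [h, one_mul]; rw [h] at hp; exact hp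
    · rw [h, neg_one_mul]; rw [h] at hp; exact hp.neg

end Pool.Agent.helper159_GP
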