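import Mathlib
import Pool.Agent.H361R2.PA.MultA

set_option autoImplicit false
set_option maxHeartbeats 4000000

/-! Prime-free intervals around values of linear polynomials (after `Pool/Agent/H361R2/PA/MultA.lean`, helper361). -/

namespace Pool.Agent.helper159_GP

open Finset Filter Pool.Agent.H318R2.Cr Pool.Agent.H361R2.PA

open scoped Classical

/-- prime-free intervals around the values of `α n + γ`, if every prime `≤ (log X) / 10` dividing `α` divides `γ` -/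
theorem multB (D : ℕ) : ∃ c : ℝ, 0 < c ∧ ∃ X₀ : ℝ, ∀ X : ℝ, X₀ ≤ X →
    ∀ α : ℕ, 1 ≤ α → Real.log α ≤ (Real.log X) ^ (D + 1) →
    ∀ γ : ℤ, (∀ p : ℕ, p.Prime → (p : ℝ) ≤ Real.log X / 10 → p ∣ α → (p : ℤ) ∣ γ) →
    ∀ z : ℤ, ∃ n : ℤ, (z : ℝ) + X / 4 < n ∧ (n : ℝ) ≤ z + X ∧
      ∀ j : ℤ, |(j : ℝ)| ≤ c * ((Nat.totient α : ℝ) / α * FF 1 X) → ¬ Prime ((α : ℤ) * n + γ + j) := by
  obtain ⟨c₀, hc₀, X₁, hass⟩ := assembleM (D + 2)
  obtain ⟨y₀, hmed⟩ := card_med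
  obtain ⟨c₂, hc₂, X₂, hfacts⟩ := facts (1000 / c₀ + 10 * |y₀| + 10)
  set c' : ℝ := min (1 / 10) (c₀ / (1000 * c₂)) with hc'
  have hc'0 : 0 < c' := by positivity
  have hc'1 : c' ≤ 1 / 10 := min_le_left _ _
  have hc'2 : c' ≤ c₀ / (1000 * c₂) := min_le_right _ _
  refine ⟨c', hc'0, max X₁ X₂, ?_⟩
  intro X hX α hα1 hαL γ hγ z
  have hX1 : X₁ ≤ X := (le_max_left _ _).trans hX
  obtain ⟨hX0, g1, g2, g3, g4, g5, g6, g7, g8, g9, g10, g11, g12, g13, g14⟩ :=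
    hfacts X ((le_max_right _ _).trans hX)
  set L1 := Real.log X with hL1
  set u₂ := Real.log L1 with hu₂
  set u₃ := Real.log u₂ with hu₃
  set u₄ := Real.log u₃ with hu₄
  set y := L1 / 10 with hy
  have hy0 : 0 < y := by rw [hy]; linarith
  have hu₃0 : 0 < u₃ := by linarith
  have hu₂0 : 0 < u₂ := by linarith
  have hu₄0 : 0 < u₄ := by linarith
  have hα0 : (0 : ℝ) < α := by exact_mod_cast (by omega : 0 < α)
  have hφ0 : (0 : ℝ) < (Nat.totient α : ℝ) := by exact_mod_cast Nat.totient_pos.2 (by omega)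
  set ρ : ℝ := (Nat.totient α : ℝ) / α with hρ
  have hρ0 : 0 < ρ := by positivity
  have hρ1 : ρ ≤ 1 := by
    rw [hρ, div_le_one hα0]
    exact_mod_cast Nat.totient_le α
  have hFF : FF 1 X = L1 * (u₂ * u₄ / u₃) * (u₂ / u₃) := by
    unfold FF
    rw [← hL1, ← hu₂, ← hu₃, ← hu₄]
    field_simp
    ring
  have hFF0 : 0 < FF 1 X := by rw [hFF]; positivity
  set F := c' * (ρ * FF 1 X) with hF
  have hF0 : 0 < F := by positivity
  have hyab : 0 ≤ |y₀| := abs_nonneg _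
  have hc0' : 0 < 1000 / c₀ := by positivity
  have hr3 : u₃ / u₂ ≤ c₀ / 1000 := by
    rw [div_le_div_iff₀ hu₂0 (by norm_num)]
    have h1 : 1000 / c₀ * u₃ ≤ u₂ := by
      have h2 : 1000 / c₀ * u₃ ≤ (1000 / c₀ + 10 * |y₀| + 10) * u₃ := by
        apply mul_le_mul_of_nonneg_right _ hu₃0.le
        linarith
      linarith
    rw [div_mul_eq_mul_div, div_le_iff₀ hc₀] at h1
    linarith
  set L : ℕ := ⌊F + L1⌋₊ with hLdef
  have hLF : (L : ℝ) ≤ F + L1 := Nat.floor_le (by linarith)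
  have hLF2 : F + L1 < L + 1 := Nat.lt_floor_add_one _
  have hyL : y ≤ L := by
    rw [hy]
    linarith
  have hFL : F ≤ L := by linarith
  have hF2 : F ≤ L1 * u₂ ^ 2 / 10 := by
    rw [hF, hFF]
    have h1 : u₂ * u₄ / u₃ ≤ u₂ := by
      rw [div_le_iff₀ hu₃0]
      gcongr
    have h2 : u₂ / u₃ ≤ u₂ := div_le_self hu₂0.le (by linarith)
    calc c' * (ρ * (L1 * (u₂ * u₄ / u₃) * (u₂ / u₃))) ≤ 1 / 10 * (1 * (L1 * u₂ * u₂)) := by
          gcongr
      _ = _ := by ring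
  have hu2sq : 1 ≤ u₂ ^ 2 := by
    calc (1 : ℝ) ≤ 160 ^ 2 := by norm_num
      _ ≤ u₂ ^ 2 := by gcongr
  have hLbig : (L : ℝ) ≤ L1 * u₂ ^ 2 := by
    have hu2b : 4 ≤ u₂ ^ 2 := by
      calc (4 : ℝ) ≤ 160 ^ 2 := by norm_num
        _ ≤ u₂ ^ 2 := by gcongr
    have hL1p : 0 ≤ L1 := by linarith
    have h1 : L1 * 4 ≤ L1 * u₂ ^ 2 := mul_le_mul_of_nonneg_left hu2b hL1p
    linarith
  have hLy : (L : ℝ) ≤ y * (Real.log y) ^ 4 := by
    refine hLbig.trans ?_
    have h1 : (u₂ / 2) ^ 4 ≤ (Real.log y) ^ 4 := by gcongr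
    have h2 : 10 * u₂ ^ 2 ≤ (u₂ / 2) ^ 4 := by
      have e1 : 0 ≤ u₂ ^ 2 := by positivity
      have e : (u₂ / 2) ^ 4 = u₂ ^ 2 * u₂ ^ 2 / 16 := by ring
      have e0 : 160 ≤ u₂ ^ 2 := by
        calc (160 : ℝ) ≤ 160 ^ 2 := by norm_num
          _ ≤ u₂ ^ 2 := by gcongr
      rw [e, le_div_iff₀ (by norm_num)]
      calc 10 * u₂ ^ 2 * 16 = 160 * u₂ ^ 2 := by ring
        _ ≤ u₂ ^ 2 * u₂ ^ 2 := mul_le_mul_of_nonneg_right e0 e1
    have h3 : L1 = 10 * y := by rw [hy]; ring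
    calc L1 * u₂ ^ 2 = y * (10 * u₂ ^ 2) := by rw [h3]; ring
      _ ≤ y * (Real.log y) ^ 4 := by gcongr; linarith
  have hyy : y₀ ≤ y := by
    have := le_abs_self y₀
    rw [hy]
    linarith
  have hcm := hmed y hyy L hyL hLy
  have hcard : ((NM y L).card : ℝ) ≤ 120 * (F + L1) * (u₃ / u₂) := by
    refine hcm.trans ?_
    have h1 : 60 * (L : ℝ) * Real.log (Real.log y) / Real.log y ≤
        60 * (F + L1) * u₃ / (u₂ / 2) := by
      apply div_le_div₀ (by positivity) _ (by positivity) g11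
      gcongr
    refine h1.trans (le_of_eq ?_)
    field_simp
    ring
  set v : ℕ := ⌊Real.exp (WW y)⌋₊ with hv
  have hvle : (v : ℝ) ≤ Real.exp (WW y) := Nat.floor_le (Real.exp_pos _).le
  set A : Finset ℤ := Icc (-(L : ℤ)) L with hA
  set A0 := A.filter (fun a => ∀ p : ℕ, p.Prime → (p : ℝ) ≤ y →
      WW y < Real.log p → ¬ (p : ℤ) ∣ a) with hA0def
  have hA0c : (A0.card : ℝ) ≤ 2 * ((NM y L).card : ℝ) + 1 := by
    have h1 : A0 ⊆ (((NM y L).image (fun m : ℕ => (m : ℤ))) ∪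
        ((NM y L).image (fun m : ℕ => -(m : ℤ)))) ∪ {0} := by
      intro a ha
      rw [hA0def, mem_filter, hA, mem_Icc] at ha
      obtain ⟨ha1, ha2⟩ := ha
      rw [mem_union, mem_union, mem_image, mem_image, mem_singleton]
      by_cases h0 : a = 0
      · right; exact h0
      · left
        have hN : a.natAbs ∈ NM y L := by
          rw [NM, mem_filter, mem_Icc]
          refine ⟨⟨by omega, by omega⟩, fun p hp hpa => ?_⟩
          by_contra hcon
          push Not at hcon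
          exact ha2 p hp hcon.1 hcon.2 (Int.natCast_dvd.2 hpa)
        rcases le_total 0 a with h | h
        · left; exact ⟨a.natAbs, hN, by omega⟩
        · right; exact ⟨a.natAbs, hN, by omega⟩
    have h2 : A0.card ≤ ((NM y L).card + (NM y L).card) + 1 := by
      refine (card_le_card h1).trans ((card_union_le _ _).trans ?_)
      have e1 := card_union_le ((NM y L).image (fun m : ℕ => (m : ℤ)))
        ((NM y L).image (fun m : ℕ => -(m : ℤ)))
      have e2 : ((NM y L).image (fun m : ℕ => (m : ℤ))).card ≤ (NM y L).card := card_image_le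
      have e3 : ((NM y L).image (fun m : ℕ => -(m : ℤ))).card ≤ (NM y L).card := card_image_le
      rw [card_singleton]
      omega
    have h3 : (A0.card : ℝ) ≤ (((NM y L).card : ℝ) + ((NM y L).card : ℝ)) + 1 := by
      exact_mod_cast h2
    linarith
  obtain ⟨b, hb⟩ := presieve ((Pz v).filter (fun p => ¬ p ∣ α))
    (fun p hp => (mem_Pz.1 (mem_filter.1 hp).1).1) A0
  have hprod := prodM α v (by omega)
  have hprod1 := prodM_one α v
  have hsol : ∀ p : ℕ, ∃ β : ℕ, p.Prime → ¬ p ∣ α → (p : ℤ) ∣ (α : ℤ) * β - (b p : ℤ) := by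
    intro p
    by_cases h : p.Prime ∧ ¬ p ∣ α
    · obtain ⟨β, hβ⟩ := solveM p α (b p) h.1 h.2
      exact ⟨β, fun _ _ => hβ⟩
    · exact ⟨0, fun h1 h2 => absurd ⟨h1, h2⟩ h⟩
  choose β hβ using hsol
  set b' : ℕ → ℕ := fun p => if Real.log p ≤ WW y then β p else 0 with hb'
  have hS : (((A.filter (fun a => ∀ p : ℕ, p.Prime → (p : ℝ) ≤ L1 / 10 →
      ¬ (p : ℤ) ∣ (α : ℤ) * (b' p : ℤ) + a)).card : ℕ) : ℝ) ≤ c₀ * L1 := by
    have h1 : (A.filter (fun a => ∀ p : ℕ, p.Prime → (p : ℝ) ≤ L1 / 10 →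
        ¬ (p : ℤ) ∣ (α : ℤ) * (b' p : ℤ) + a)) ⊆
        A0.filter (fun a => ∀ p ∈ (Pz v).filter (fun p => ¬ p ∣ α),
          ¬ (p : ℤ) ∣ (b p : ℤ) + a) := by
      intro a ha
      rw [mem_filter] at ha
      obtain ⟨haA, hsur⟩ := ha
      rw [mem_filter, hA0def, mem_filter]
      refine ⟨⟨haA, ?_⟩, ?_⟩
      · intro p hp hpy hpW hpa
        apply hsur p hp hpy
        have h4 : b' p = 0 := by
          rw [hb']
          simp only [not_le.2 hpW, if_false]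
        rw [h4]
        simpa using hpa
      · intro p hp
        rw [mem_filter, mem_Pz] at hp
        obtain ⟨⟨hpp, hpv⟩, hpQ⟩ := hp
        have hp0 : (0 : ℝ) < p := by exact_mod_cast hpp.pos
        have h2 : (p : ℝ) ≤ Real.exp (WW y) := le_trans (by exact_mod_cast hpv) hvle
        have h3 : Real.log p ≤ WW y := by rwa [Real.log_le_iff_le_exp hp0]
        have h4 : (p : ℝ) ≤ y := by
          refine h2.trans ?_
          calc Real.exp (WW y) ≤ Real.exp (Real.log y) := Real.exp_le_exp.2 g10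
            _ = y := Real.exp_log hy0
        have h5 := hsur p hpp h4
        have h6 : b' p = β p := by
          rw [hb']
          simp only [h3, if_true]
        rw [h6] at h5
        intro h7
        apply h5
        have h8 := dvd_add (hβ p hpp hpQ) h7
        refine h8.trans (dvd_of_eq ?_)
        ring
    have h2 : (((A.filter (fun a => ∀ p : ℕ, p.Prime → (p : ℝ) ≤ L1 / 10 →
        ¬ (p : ℤ) ∣ (α : ℤ) * (b' p : ℤ) + a)).card : ℕ) : ℝ) ≤
        ((A0.filter (fun a => ∀ p ∈ (Pz v).filter (fun p => ¬ p ∣ α),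
          ¬ (p : ℤ) ∣ (b p : ℤ) + a)).card : ℝ) := by
      exact_mod_cast card_le_card h1
    refine h2.trans (hb.trans ?_)
    set W₂ := ∏ p ∈ (Pz v).filter (fun p => ¬ p ∣ α), (1 - 1 / (p : ℝ)) with hW₂
    have hW0 : 0 ≤ W₂ := prod_nonneg fun p hp =>
      (one_sub_inv_pos (mem_Pz.1 (mem_filter.1 hp).1).1).le
    have hWρ : W₂ * ρ ≤ c₂ * u₃ / (u₂ * u₄) := by
      have e1 : W₂ * ρ ≤ V v * ((α : ℝ) / (Nat.totient α : ℝ)) * ρ := by gcongr
      have e2 : V v * ((α : ℝ) / (Nat.totient α : ℝ)) * ρ = V v := by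
        rw [hρ]
        field_simp
      rw [e2] at e1
      exact e1.trans g14
    have hmain : F * (u₃ / u₂) * W₂ ≤ c' * c₂ * L1 := by
      calc F * (u₃ / u₂) * W₂ = c' * FF 1 X * (u₃ / u₂) * (W₂ * ρ) := by rw [hF]; ring
        _ ≤ c' * FF 1 X * (u₃ / u₂) * (c₂ * u₃ / (u₂ * u₄)) := by gcongr
        _ = c' * c₂ * L1 := by
          rw [hFF]
          field_simp
    have hcc : c' * c₂ ≤ c₀ / 1000 := by
      calc c' * c₂ ≤ c₀ / (1000 * c₂) * c₂ := by gcongr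
        _ = _ := by field_simp
    have hsec : L1 * (u₃ / u₂) * W₂ ≤ L1 * (c₀ / 1000) := by
      calc L1 * (u₃ / u₂) * W₂ ≤ L1 * (c₀ / 1000) * 1 := by gcongr
        _ = _ := mul_one _
    have hone : 1 ≤ c₀ / 100 * L1 := by
      have h5 : 1000 / c₀ ≤ L1 := by linarith
      rw [div_le_iff₀ hc₀] at h5
      linarith
    have h3 : (A0.card : ℝ) * W₂ ≤ (240 * (F + L1) * (u₃ / u₂) + 1) * W₂ := by
      apply mul_le_mul_of_nonneg_right _ hW0
      linarith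
    have h4 : (240 * (F + L1) * (u₃ / u₂) + 1) * W₂ =
        240 * (F * (u₃ / u₂) * W₂) + 240 * (L1 * (u₃ / u₂) * W₂) + W₂ := by ring
    have h5 : c' * c₂ * L1 ≤ c₀ / 1000 * L1 := by
      apply mul_le_mul_of_nonneg_right hcc (by linarith)
    have h6 : 0 < c₀ * L1 := by positivity
    calc (A0.card : ℝ) * W₂ ≤ 240 * (F * (u₃ / u₂) * W₂) + 240 * (L1 * (u₃ / u₂) * W₂) + W₂ := by
          rw [← h4]; exact h3
      _ ≤ c₀ * L1 := by
          have e3 : L1 * (c₀ / 1000) = c₀ * L1 / 1000 := by ring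
          have e4 : c₀ / 1000 * L1 = c₀ * L1 / 1000 := by ring
          have e5 : c₀ / 100 * L1 = c₀ * L1 / 100 := by ring
          linarith
  have hAcard : (A.card : ℝ) ≤ L1 ^ 2 := by
    have hcA1 : ((Icc (-(L : ℤ)) (L : ℤ)).card : ℝ) = 2 * L + 1 := by
      rw [Int.card_Icc]
      have : ((L : ℤ) + 1 - -(L : ℤ)).toNat = 2 * L + 1 := by omega
      rw [this]
      push_cast
      ring
    rw [hA, hcA1]
    have h1 : 2 * (L1 * u₂ ^ 2) + 1 ≤ L1 * u₂ ^ 3 := by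
      have h6 : L1 * u₂ ^ 3 = u₂ * (L1 * u₂ ^ 2) := by ring
      rw [h6]
      have h7 : 1 * 1 ≤ L1 * u₂ ^ 2 :=
        mul_le_mul (by linarith) hu2sq (by norm_num) (by linarith)
      have h9 : 160 * (L1 * u₂ ^ 2) ≤ u₂ * (L1 * u₂ ^ 2) :=
        mul_le_mul_of_nonneg_right g2 (by linarith)
      linarith
    have h7 : L1 * u₂ ^ 3 ≤ L1 * L1 := by gcongr
    have h8 : L1 ^ 2 = L1 * L1 := by ring
    rw [h8]
    linarith
  have hAb : ∀ a ∈ A, |(a : ℝ)| ≤ Real.exp (L1 ^ (D + 1)) := by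
    intro a ha
    rw [hA, mem_Icc] at ha
    have h1 : |(a : ℝ)| ≤ L := by
      rw [abs_le]
      constructor
      · have : ((-(L : ℤ) : ℤ) : ℝ) ≤ a := by exact_mod_cast ha.1
        push_cast at this
        linarith
      · have : (a : ℝ) ≤ ((L : ℤ) : ℝ) := by exact_mod_cast ha.2
        push_cast at this
        linarith
    have h2 : (L : ℝ) ≤ L1 ^ 2 := by
      have h3 : L1 * u₂ ^ 2 ≤ L1 * u₂ ^ 3 := by
        have h4 : 0 ≤ L1 * u₂ ^ 2 := by positivity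
        have h6 : L1 * u₂ ^ 3 = u₂ * (L1 * u₂ ^ 2) := by ring
        rw [h6]
        have h9 : 1 * (L1 * u₂ ^ 2) ≤ u₂ * (L1 * u₂ ^ 2) :=
          mul_le_mul_of_nonneg_right (by linarith) h4
        linarith
      have h7 : L1 * u₂ ^ 3 ≤ L1 * L1 := by gcongr
      have h8 : L1 ^ 2 = L1 * L1 := by ring
      rw [h8]
      linarith
    have h3 : L1 ^ 2 ≤ Real.exp L1 := by
      have h4 := Real.pow_div_factorial_le_exp L1 (by linarith) 3
      have h5 : (Nat.factorial 3 : ℝ) = 6 := by norm_num [Nat.factorial]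
      rw [h5] at h4
      refine le_trans ?_ h4
      rw [le_div_iff₀ (by norm_num)]
      have : 0 ≤ L1 ^ 2 := by positivity
      nlinarith
    have h4 : Real.exp L1 ≤ Real.exp (L1 ^ (D + 1)) := by
      apply Real.exp_le_exp.2
      calc L1 = L1 ^ 1 := (pow_one _).symm
        _ ≤ L1 ^ (D + 1) := pow_le_pow_right₀ (by linarith) (by omega)
    linarith
  have hαZ : (0 : ℤ) < α := by exact_mod_cast hα1
  obtain ⟨q, hq⟩ : ∃ q : ℤ, q = γ / α := ⟨_, rfl⟩
  obtain ⟨γ₀, hγ₀⟩ : ∃ γ₀ : ℤ, γ₀ = γ % α := ⟨_, rfl⟩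
  have hγq : γ = α * q + γ₀ := by rw [hq, hγ₀]; exact (Int.mul_ediv_add_emod γ α).symm
  have hγ01 : 0 ≤ γ₀ := by rw [hγ₀]; exact Int.emod_nonneg _ hαZ.ne'
  have hγ02 : γ₀ < α := by rw [hγ₀]; exact Int.emod_lt_of_pos _ hαZ
  have hL10 : 0 ≤ L1 := by linarith
  have hpow1 : L1 ^ (D + 1) ≤ L1 ^ (D + 2) := pow_le_pow_right₀ (by linarith) (by omega)
  have hpow0 : 1 ≤ L1 ^ (D + 1) := one_le_pow₀ (by linarith)
  have hpow2 : 1 + L1 ^ (D + 1) ≤ L1 ^ (D + 2) := by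
    have h1 : L1 ^ (D + 2) = L1 ^ (D + 1) * L1 := pow_succ _ _
    rw [h1]
    have h2 : L1 ^ (D + 1) * 2 ≤ L1 ^ (D + 1) * L1 := mul_le_mul_of_nonneg_left (by linarith) (by linarith)
    linarith
  obtain ⟨A', hA'⟩ : ∃ A' : Finset ℤ, A' = A.image (fun a => a + γ₀) := ⟨_, rfl⟩
  have hA'card : (A'.card : ℝ) ≤ L1 ^ 2 := by
    refine le_trans ?_ hAcard
    rw [hA']
    exact_mod_cast card_image_le
  have hA'b : ∀ a ∈ A', |(a : ℝ)| ≤ Real.exp (L1 ^ (D + 2)) := by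
    intro a ha
    rw [hA', mem_image] at ha
    obtain ⟨a₀, ha₀, rfl⟩ := ha
    have h1 := hAb a₀ ha₀
    have h2 : |(γ₀ : ℝ)| ≤ Real.exp (L1 ^ (D + 1)) := by
      rw [abs_of_nonneg (by exact_mod_cast hγ01)]
      have h3 : (γ₀ : ℝ) ≤ α := by exact_mod_cast hγ02.le
      refine h3.trans ?_
      rw [← Real.log_le_iff_le_exp hα0]
      exact hαL
    push_cast
    calc |(a₀ : ℝ) + γ₀| ≤ Real.exp (L1 ^ (D + 1)) + Real.exp (L1 ^ (D + 1)) :=
          (abs_add_le _ _).trans (add_le_add h1 h2)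
      _ = 2 * Real.exp (L1 ^ (D + 1)) := by ring
      _ ≤ Real.exp 1 * Real.exp (L1 ^ (D + 1)) := by
          apply mul_le_mul_of_nonneg_right _ (Real.exp_pos _).le
          have := Real.add_one_le_exp (1 : ℝ)
          linarith
      _ = Real.exp (1 + L1 ^ (D + 1)) := (Real.exp_add _ _).symm
      _ ≤ Real.exp (L1 ^ (D + 2)) := Real.exp_le_exp.2 hpow2
  have hsol2 : ∀ p : ℕ, ∃ w : ℕ, p.Prime → (p : ℝ) ≤ L1 / 10 →
      (p : ℤ) ∣ (α : ℤ) * w + γ₀ - α * b' p := by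
    intro p
    by_cases hp : p.Prime
    · by_cases hpa : p ∣ α
      · refine ⟨0, fun _ hpL => ?_⟩
        have h1 : (p : ℤ) ∣ α := by exact_mod_cast hpa
        have h2 := hγ p hp hpL hpa
        have h3 : (α : ℤ) * ((0 : ℕ) : ℤ) + γ₀ - α * b' p = γ - α * (q + b' p) := by
          rw [hγq]; push_cast; ring
        rw [h3]
        exact dvd_sub h2 (Dvd.dvd.mul_right h1 _)
      · obtain ⟨w, hw⟩ := solveM p α ((α : ℤ) * b' p - γ₀) hp hpa
        refine ⟨w, fun _ _ => ?_⟩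
        refine hw.trans (dvd_of_eq ?_)
        ring
    · exact ⟨0, fun h => absurd h hp⟩
  choose b2 hb2 using hsol2
  have hS2 : (((A'.filter (fun a => ∀ p : ℕ, p.Prime → (p : ℝ) ≤ L1 / 10 →
      ¬ (p : ℤ) ∣ (α : ℤ) * (b2 p : ℤ) + a)).card : ℕ) : ℝ) ≤ c₀ * L1 := by
    refine le_trans ?_ hS
    have h1 : A'.filter (fun a => ∀ p : ℕ, p.Prime → (p : ℝ) ≤ L1 / 10 →
        ¬ (p : ℤ) ∣ (α : ℤ) * (b2 p : ℤ) + a) ⊆
        (A.filter (fun a => ∀ p : ℕ, p.Prime → (p : ℝ) ≤ L1 / 10 →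
          ¬ (p : ℤ) ∣ (α : ℤ) * (b' p : ℤ) + a)).image (fun a => a + γ₀) := by
      intro a ha
      rw [mem_filter, hA', mem_image] at ha
      obtain ⟨⟨a₀, ha₀, rfl⟩, ha2⟩ := ha
      rw [mem_image]
      refine ⟨a₀, mem_filter.2 ⟨ha₀, fun p hp hpL hdiv => ?_⟩, rfl⟩
      apply ha2 p hp hpL
      have h3 := dvd_add (hb2 p hp hpL) hdiv
      refine h3.trans (dvd_of_eq ?_)
      ring
    exact_mod_cast (card_le_card h1).trans card_image_le
  obtain ⟨n, hn1, hn2, hn3, hn4⟩ := hass X hX1 α hα1 (hαL.trans hpow1) A' hA'card hA'b b2 hS2 (z + q)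
  refine ⟨n - q, ?_, ?_, ?_⟩
  · push_cast at hn1 ⊢
    linarith
  · push_cast at hn2 ⊢
    linarith
  intro j hj
  have hjA : j ∈ A := by
    rw [hA, mem_Icc]
    rw [abs_le] at hj
    constructor
    · have h1 : (-(L : ℝ)) ≤ j := by linarith [hj.1]
      exact_mod_cast h1
    · have h1 : (j : ℝ) ≤ (L : ℝ) := by linarith [hj.2]
      exact_mod_cast h1
  have h1 := hn4 (j + γ₀) (by rw [hA']; exact mem_image_of_mem _ hjA)
  have h2 : (α : ℤ) * (n - q) + γ + j = α * n + (j + γ₀) := by rw [hγq]; ring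
  rw [h2]
  exact h1

end Pool.Agent.helper159_GP
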