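import Mathlib
import Pool.Agent.helper159_GP.LinK
import Pool.Agent.helper159_GP.MultB

set_option autoImplicit false

/-! Record gaps around values of linear polynomials with large coefficients in every box: final statement. -/

namespace Pool.Agent.helper159_GP

open Filter Finset Pool.Agent.helper159_ZK Pool.Agent.helper159_BO

theorem kbase : KBase := by
  intro D
  obtain ⟨c, hc, X₀, h⟩ := multB D
  refine ⟨c, hc, X₀, fun X hX α hα hαL γ hγ z => ?_⟩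
  obtain ⟨n, h1, h2, h3⟩ := h X hX α hα hαL γ hγ z
  refine ⟨n, h1, h2, fun j hj => h3 j ?_⟩
  have hF : Pool.Agent.H361R2.PA.FF 1 X = F (Real.log X) := by
    unfold Pool.Agent.H361R2.PA.FF F
    rw [pow_one]
  rw [hF]
  exact hj

theorem bezout {r : ℕ} (E : Fin r → ℤ) (h : univ.gcd E = 1) : ∃ m : Fin r → ℤ, ∑ i, m i * E i = 1 := by
  obtain ⟨a, ha⟩ := (IsPrincipalIdealRing.principal (Ideal.span (Set.range E))).principal
  have ha' : Ideal.span (Set.range E) = Ideal.span {a} := ha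
  have h1 : a ∣ 1 := by
    rw [← h]
    apply Finset.dvd_gcd
    intro i _
    have h2 : E i ∈ Ideal.span {a} := by
      rw [← ha']
      exact Ideal.subset_span ⟨i, rfl⟩
    exact Ideal.mem_span_singleton.1 h2
  have h2 : (1 : ℤ) ∈ Ideal.span (Set.range E) := by
    rw [ha']
    exact Ideal.mem_span_singleton.2 h1
  exact (Ideal.mem_span_range_iff_exists_fun).1 h2

theorem finalK (C : ℕ) :
    ∃ κ : ℝ, 0 < κ ∧ ∃ x₀ : ℝ, ∀ x : ℝ, x₀ ≤ x → ∀ (r : ℕ) (d : Fin r → ℤ) (g : ℕ), 1 ≤ g →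
      (g : ℤ) = univ.gcd d → ((∑ i, |d i| : ℤ) : ℝ) ≤ Real.exp (Real.log x ^ C) → ∀ n₀ : ℤ,
      (∀ p : ℕ, p.Prime → (p : ℝ) ≤ Real.log x → p ∣ g → (p : ℤ) ∣ n₀) → ∀ z : Fin r → ℤ,
      ∃ k : Fin r → ℤ, (∀ i, z i < k i ∧ (k i : ℝ) ≤ z i + x) ∧
        ∀ j : ℤ, |(j : ℝ)| ≤ κ * ((Nat.totient g : ℝ) / g) * F (Real.log x) →
          ¬ (n₀ + ∑ i, k i * d i + j).natAbs.Prime := by
  obtain ⟨κ, hκ, x₀, H⟩ := linK kbase C
  refine ⟨κ, hκ, x₀, fun x hx r d g hg hgd hsum n₀ hn₀ z => ?_⟩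
  have hr : 1 ≤ r := by
    rcases Nat.eq_zero_or_pos r with h | h
    · subst h
      rw [Finset.univ_eq_empty, Finset.gcd_empty] at hgd
      have : g = 0 := by exact_mod_cast hgd
      omega
    · exact h
  have : Nonempty (Fin r) := ⟨⟨0, hr⟩⟩
  obtain ⟨E, hE1, hE2⟩ := Finset.extract_gcd d (univ_nonempty (α := Fin r))
  rw [← hgd] at hE1
  have hEE : (g : ℤ) * ∑ i, |E i| = ∑ i, |d i| := by
    rw [Finset.mul_sum]
    apply Finset.sum_congr rfl
    intro i hi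
    rw [hE1 i hi, abs_mul, Nat.abs_cast]
  obtain ⟨m, hm⟩ := bezout E hE2
  obtain ⟨k, hk1, hk2⟩ := H x hx g r hg E (by
      have h1 : (g : ℝ) * ((∑ i, |E i| : ℤ) : ℝ) = ((∑ i, |d i| : ℤ) : ℝ) := by
        rw [← hEE]; push_cast; ring
      rw [h1]; exact hsum) m hm n₀ hn₀ z
  refine ⟨k, hk1, fun j hj hp => ?_⟩
  apply hk2 j hj
  have h1 : ∑ i, k i * d i = (g : ℤ) * ∑ i, k i * E i := by
    rw [Finset.mul_sum]
    apply Finset.sum_congr rfl
    intro i hi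
    rw [hE1 i hi]
    ring
  rw [← h1]
  exact Int.prime_iff_natAbs_prime.2 hp

end Pool.Agent.helper159_GP
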